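import Mathlib

/-!
Automatic groups.
-/

set_option autoImplicit false

namespace Pool.Agent.Lib.MP_2fb4be_al

/-- `G` is automatic: there are a finite inverse-closed alphabet generating `G`, a regular language
mapping onto `G`, and a constant for the synchronous fellow traveller property. -/
def IsAutomatic (G : Type) [Group G] : Prop :=
  ∃ (A : Type) (_ : Fintype A) (f : A → G) (L : Language A) (k : ℕ),
    Subgroup.closure (Set.range f) = ⊤ ∧
    (∀ a : A, ∃ b : A, f b = (f a)⁻¹) ∧
    (∃ (σ : Type) (_ : Fintype σ) (M : DFA A σ), M.accepts = L) ∧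
    (∀ g : G, ∃ w ∈ L, (w.map f).prod = g) ∧
    (∀ u ∈ L, ∀ v ∈ L,
      (∃ s : List A, s.length ≤ 1 ∧ (u.map f).prod * (s.map f).prod = (v.map f).prod) →
      ∀ t : ℕ, ∃ s : List A, s.length ≤ k ∧
        ((u.take t).map f).prod * (s.map f).prod = ((v.take t).map f).prod)

end Pool.Agent.Lib.MP_2fb4be_al
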