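import Mathlib
import Pool.Agent.Lib.MP_2fb4be_al.Defs

-- part Pool.Agent.Lib.MP_2fb4be_al.Chain
section

/-!
Ordered simplicial chains with coefficients mod 2: boundary, prism operator, cap product.
-/

set_option autoImplicit false

namespace Pool.Agent.Lib.MP_2fb4be_al

open Finsupp

/-- Chains: finite sums of lists of vertices. -/
abbrev Ch (X : Type) : Type := List X →₀ ZMod 2

variable {X Y : Type}

/-- Linear extension. -/
noncomputable def ext (φ : List X → Ch Y) : Ch X →ₗ[ZMod 2] Ch Y :=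
  Finsupp.linearCombination (ZMod 2) φ

/-- A simplex as a chain. -/
noncomputable def sx (l : List X) : Ch X := single l 1

@[simp] theorem ext_sx (φ : List X → Ch Y) (l : List X) : ext φ (sx l) = φ l := by
  simp [ext, sx]

theorem add_self (c : Ch X) : c + c = 0 := by
  ext l
  simp [CharTwo.add_self_eq_zero]

theorem zmod2 : ∀ b : ZMod 2, b = 0 ∨ b = 1 := by decide

theorem ch_ind {p : Ch X → Prop} (h0 : p 0) (h1 : ∀ l, p (sx l))
    (h2 : ∀ c d, p c → p d → p (c + d)) (c : Ch X) : p c := by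
  induction c using Finsupp.induction_linear with
  | zero => exact h0
  | add f g hf hg => exact h2 f g hf hg
  | single l b =>
    rcases zmod2 b with rfl | rfl
    · rw [single_zero]; exact h0
    · exact h1 l

theorem lin_ext {F H : Ch X →ₗ[ZMod 2] Ch Y} (h : ∀ l, F (sx l) = H (sx l)) (c : Ch X) :
    F c = H c :=
  ch_ind (p := fun c => F c = H c) (by simp) h (fun c d h1 h2 => by simp [h1, h2]) c

/-- Cone from a vertex. -/
noncomputable def cn (x : X) : Ch X →ₗ[ZMod 2] Ch X := ext fun l => sx (x :: l)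

@[simp] theorem cn_sx (x : X) (l : List X) : cn x (sx l) = sx (x :: l) := ext_sx _ _

/-- Boundary of a simplex. -/
noncomputable def bdL : List X → Ch X
  | [] => 0
  | x :: l => sx l + cn x (bdL l)

/-- Boundary. -/
noncomputable def bd : Ch X →ₗ[ZMod 2] Ch X := ext bdL

@[simp] theorem bd_sx (l : List X) : bd (sx l) = bdL l := ext_sx _ _

theorem bd_cn (x : X) (c : Ch X) : bd (cn x c) = c + cn x (bd c) :=
  lin_ext (F := bd ∘ₗ cn x) (H := LinearMap.id + cn x ∘ₗ bd) (fun l => by simp [bdL]) c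

theorem bd_bd (c : Ch X) : bd (bd c) = 0 := by
  refine lin_ext (F := bd ∘ₗ bd) (H := 0) (fun l => ?_) c
  simp only [LinearMap.comp_apply, bd_sx, LinearMap.zero_apply]
  induction l with
  | nil => simp [bdL]
  | cons x l ih => rw [bdL, map_add, bd_cn, ih, bd_sx, map_zero, add_zero, add_self]

/-- Push-forward along a map of vertices. -/
noncomputable def push (φ : X → Y) : Ch X →ₗ[ZMod 2] Ch Y := ext fun l => sx (l.map φ)

@[simp] theorem push_sx (φ : X → Y) (l : List X) : push φ (sx l) = sx (l.map φ) := ext_sx _ _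

theorem push_cn (φ : X → Y) (x : X) (c : Ch X) : push φ (cn x c) = cn (φ x) (push φ c) :=
  lin_ext (F := push φ ∘ₗ cn x) (H := cn (φ x) ∘ₗ push φ) (fun l => by simp) c

theorem bd_push (φ : X → Y) (c : Ch X) : bd (push φ c) = push φ (bd c) := by
  refine lin_ext (F := bd ∘ₗ push φ) (H := push φ ∘ₗ bd) (fun l => ?_) c
  simp only [LinearMap.comp_apply, bd_sx, push_sx]
  induction l with
  | nil => simp [bdL]
  | cons x l ih => simp [bdL, push_cn, ih]

theorem push_push {Z : Type} (φ : X → Y) (ψ : Y → Z) (c : Ch X) :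
    push ψ (push φ c) = push (ψ ∘ φ) c :=
  lin_ext (F := push ψ ∘ₗ push φ) (H := push (ψ ∘ φ)) (fun l => by simp) c

theorem push_id (c : Ch X) : push id c = c :=
  lin_ext (F := push id) (H := LinearMap.id) (fun l => by simp) c

/-- Prism over a simplex. -/
noncomputable def prL (φ ψ : X → Y) : List X → Ch Y
  | [] => 0
  | x :: l => sx (φ x :: ψ x :: l.map ψ) + cn (φ x) (prL φ ψ l)

/-- Prism operator. -/
noncomputable def pr (φ ψ : X → Y) : Ch X →ₗ[ZMod 2] Ch Y := ext (prL φ ψ)

@[simp] theorem pr_sx (φ ψ : X → Y) (l : List X) : pr φ ψ (sx l) = prL φ ψ l := ext_sx _ _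

theorem pr_cn (φ ψ : X → Y) (x : X) (c : Ch X) :
    pr φ ψ (cn x c) = cn (φ x) (cn (ψ x) (push ψ c)) + cn (φ x) (pr φ ψ c) :=
  lin_ext (F := pr φ ψ ∘ₗ cn x) (H := cn (φ x) ∘ₗ cn (ψ x) ∘ₗ push ψ + cn (φ x) ∘ₗ pr φ ψ)
    (fun l => by simp [prL]) c

theorem bd_pr (φ ψ : X → Y) (c : Ch X) :
    bd (pr φ ψ c) = pr φ ψ (bd c) + (push φ c + push ψ c) := by
  refine lin_ext (F := bd ∘ₗ pr φ ψ) (H := pr φ ψ ∘ₗ bd + (push φ + push ψ)) (fun l => ?_) c
  simp only [LinearMap.comp_apply, bd_sx, push_sx, pr_sx, LinearMap.add_apply]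
  induction l with
  | nil => simp [bdL, prL, add_self]
  | cons x l ih =>
    have e : bdL (l.map ψ) = push ψ (bdL l) := by rw [← bd_sx, ← push_sx, bd_push, bd_sx]
    simp only [prL, bdL, map_add, bd_sx, bd_cn, ih, pr_sx, pr_cn, cn_sx, e, List.map_cons]
    have h2 := add_self (sx (φ x :: l.map ψ))
    rw [← sub_eq_zero, ← h2]
    abel

/-- Keep the simplices whose first vertex satisfies `f`. -/
noncomputable def mfL (f : X → Bool) : List X → Ch X
  | [] => 0
  | x :: l => if f x then sx (x :: l) else 0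

/-- Keep the simplices whose first vertex satisfies `f`. -/
noncomputable def mf (f : X → Bool) : Ch X →ₗ[ZMod 2] Ch X := ext (mfL f)

@[simp] theorem mf_sx (f : X → Bool) (l : List X) : mf f (sx l) = mfL f l := ext_sx _ _

theorem mf_cn (f : X → Bool) (x : X) (c : Ch X) : mf f (cn x c) = if f x then cn x c else 0 := by
  split_ifs with h
  · exact lin_ext (F := mf f ∘ₗ cn x) (H := cn x) (fun l => by simp [mfL, h]) c
  · exact lin_ext (F := mf f ∘ₗ cn x) (H := 0) (fun l => by simp [mfL, h]) c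

/-- Cap product with the coboundary of `f`. -/
noncomputable def cap (f : X → Bool) : Ch X →ₗ[ZMod 2] Ch X := bd ∘ₗ mf f + mf f ∘ₗ bd

theorem bd_cap (f : X → Bool) (c : Ch X) : bd (cap f c) = bd (mf f (bd c)) := by
  simp [cap, bd_bd]

theorem cap_sx (f : X → Bool) (x y : X) (l : List X) :
    cap f (sx (x :: y :: l)) = if f x = f y then 0 else sx (y :: l) := by
  simp only [cap, LinearMap.add_apply, LinearMap.comp_apply, mf_sx, bd_sx]
  rw [bdL, map_add, mf_cn, mf_sx, mfL, mfL]
  cases hx : f x <;> cases hy : f y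
  · simp
  · simp
  · simp only [if_true, bd_sx, Bool.false_eq_true, if_false, zero_add, Bool.true_eq_false]
    rw [bdL, add_assoc, add_self, add_zero]
  · simp only [if_true, bd_sx]
    rw [bdL, add_self]

theorem mf_pr (f : Y → Bool) (φ ψ : X → Y) (h : ∀ x, f (φ x) = false) (c : Ch X) :
    mf f (pr φ ψ c) = 0 := by
  refine lin_ext (F := mf f ∘ₗ pr φ ψ) (H := 0) (fun l => ?_) c
  rcases l with _ | ⟨x, l⟩
  · simp [prL]
  · simp [prL, mf_cn, mfL, h]

theorem mf_push_false (f : Y → Bool) (φ : X → Y) (h : ∀ x, f (φ x) = false) (c : Ch X) :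
    mf f (push φ c) = 0 := by
  refine lin_ext (F := mf f ∘ₗ push φ) (H := 0) (fun l => ?_) c
  rcases l with _ | ⟨x, l⟩
  · simp [mfL]
  · simp [mfL, h]

theorem bd_mf_push_true (f : Y → Bool) (φ : X → Y) (h : ∀ x, f (φ x) = true) (c : Ch X) :
    bd (mf f (push φ c)) = bd (push φ c) := by
  refine lin_ext (F := bd ∘ₗ mf f ∘ₗ push φ) (H := bd ∘ₗ push φ) (fun l => ?_) c
  rcases l with _ | ⟨x, l⟩
  · simp [mfL, bdL]
  · simp [mfL, h]

/-- At most `N` simplices, all satisfying `S`. -/
def Sup (c : Ch X) (S : List X → Prop) (N : ℕ) : Prop :=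
  c.support.card ≤ N ∧ ∀ l ∈ c.support, S l

theorem Sup.mono {c : Ch X} {S S' : List X → Prop} {N N' : ℕ} (h : Sup c S N)
    (hS : ∀ l, S l → S' l) (hN : N ≤ N') : Sup c S' N' :=
  ⟨h.1.trans hN, fun l hl => hS l (h.2 l hl)⟩

theorem Sup.zero (S : List X → Prop) (N : ℕ) : Sup (0 : Ch X) S N := by simp [Sup]

theorem Sup.sx {S : List X → Prop} {l : List X} (h : S l) : Sup (sx l) S 1 := by
  have e : (Pool.Agent.Lib.MP_2fb4be_al.sx l).support = {l} := support_single _ one_ne_zero
  refine ⟨by rw [e]; simp, fun m hm => ?_⟩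
  rw [e, Finset.mem_singleton] at hm
  exact hm ▸ h

theorem Sup.add {c d : Ch X} {S : List X → Prop} {N M : ℕ} (h1 : Sup c S N) (h2 : Sup d S M) :
    Sup (c + d) S (N + M) := by
  classical
  refine ⟨?_, fun l hl => ?_⟩
  · exact (Finset.card_le_card support_add).trans
      ((Finset.card_union_le _ _).trans (add_le_add h1.1 h2.1))
  · rcases Finset.mem_union.1 (support_add hl) with h | h
    · exact h1.2 l h
    · exact h2.2 l h

theorem Sup.sum {ι : Type} (s : Finset ι) {c : ι → Ch X} {S : List X → Prop} {N : ℕ}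
    (h : ∀ i ∈ s, Sup (c i) S N) : Sup (∑ i ∈ s, c i) S (s.card * N) := by
  classical
  induction s using Finset.induction_on with
  | empty => simpa using Sup.zero S 0
  | insert a s ha ih =>
    rw [Finset.sum_insert ha, Finset.card_insert_of_notMem ha, add_mul, one_mul, add_comm (_ * _)]
    exact (h a (by simp)).add (ih fun i hi => h i (by simp [hi]))

theorem Sup.lin {c : Ch X} {S : List X → Prop} {S' : List Y → Prop} {N M : ℕ} (h : Sup c S N)
    (F : Ch X →ₗ[ZMod 2] Ch Y) (hF : ∀ l, S l → Sup (F (Pool.Agent.Lib.MP_2fb4be_al.sx l)) S' M) :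
    Sup (F c) S' (N * M) := by
  have e : c = ∑ l ∈ c.support, Pool.Agent.Lib.MP_2fb4be_al.sx l := by
    conv_lhs => rw [← c.sum_single]
    refine Finset.sum_congr rfl fun l hl => ?_
    have h1 : c l ≠ 0 := mem_support_iff.1 hl
    have h2 : c l = 1 := (zmod2 _).resolve_left h1
    rw [h2]
    rfl
  rw [e, map_sum]
  exact (Sup.sum _ fun l hl => hF l (h.2 l hl)).mono (fun _ h => h) (Nat.mul_le_mul_right _ h.1)

theorem Sup.push {c : Ch X} {S : List X → Prop} {S' : List Y → Prop} {N : ℕ} (h : Sup c S N)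
    (φ : X → Y) (hφ : ∀ l, S l → S' (l.map φ)) : Sup (push φ c) S' N := by
  have := h.lin (M := 1) (S' := S') (Pool.Agent.Lib.MP_2fb4be_al.push φ) fun l hl => by
    rw [push_sx]; exact Sup.sx (hφ l hl)
  rwa [mul_one] at this

theorem Sup.cn {c : Ch X} {S S' : List X → Prop} {N : ℕ} (h : Sup c S N) (x : X)
    (hx : ∀ l, S l → S' (x :: l)) : Sup (cn x c) S' N := by
  have := h.lin (M := 1) (S' := S') (Pool.Agent.Lib.MP_2fb4be_al.cn x) fun l hl => by
    rw [cn_sx]; exact Sup.sx (hx l hl)
  rwa [mul_one] at this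

theorem sup_prL (φ ψ : X → Y) (l : List X) :
    Sup (prL φ ψ l) (fun m => m.length = l.length + 1 ∧ ∀ y ∈ m, ∃ x ∈ l, y = φ x ∨ y = ψ x)
      l.length := by
  induction l with
  | nil => exact Sup.zero _ _
  | cons x l ih =>
    rw [prL, List.length_cons, add_comm l.length 1]
    refine Sup.add (Sup.sx ⟨by simp; omega, ?_⟩) (ih.cn _ ?_)
    · intro y hy
      simp only [List.mem_cons, List.mem_map] at hy
      rcases hy with rfl | rfl | ⟨z, hz, rfl⟩
      · exact ⟨x, by simp, Or.inl rfl⟩
      · exact ⟨x, by simp, Or.inr rfl⟩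
      · exact ⟨z, by simp [hz], Or.inr rfl⟩
    · rintro m ⟨h1, h2⟩
      refine ⟨by simp; omega, fun y hy => ?_⟩
      rcases List.mem_cons.1 hy with rfl | hy
      · exact ⟨x, by simp, Or.inl rfl⟩
      · obtain ⟨z, hz, h⟩ := h2 y hy
        exact ⟨z, by simp [hz], h⟩

theorem Sup.pr {c : Ch X} {S : List X → Prop} {S' : List Y → Prop} {N n : ℕ} (h : Sup c S N)
    (φ ψ : X → Y) (hn : ∀ l, S l → l.length = n)
    (hS : ∀ l m, S l → m.length = n + 1 → (∀ y ∈ m, ∃ x ∈ l, y = φ x ∨ y = ψ x) → S' m) :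
    Sup (pr φ ψ c) S' (N * n) :=
  h.lin (Pool.Agent.Lib.MP_2fb4be_al.pr φ ψ) fun l hl => by
    rw [pr_sx]
    exact (sup_prL φ ψ l).mono (fun m hm => hS l m hl (by rw [← hn l hl]; exact hm.1) hm.2)
      (hn l hl).le

theorem Sup.cap {c : Ch X} {S S' : List X → Prop} {N : ℕ} (h : Sup c S N) (f : X → Bool)
    (hn : ∀ l, S l → 2 ≤ l.length)
    (hS : ∀ x y l, S (x :: y :: l) → f x ≠ f y → S' (y :: l)) : Sup (cap f c) S' N := by
  simpa using h.lin (M := 1) (Pool.Agent.Lib.MP_2fb4be_al.cap f) fun l hl => by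
    have := hn l hl
    rcases l with _ | ⟨x, _ | ⟨y, l⟩⟩
    · simp at this
    · simp at this
    · rw [cap_sx]
      split_ifs with e
      · exact Sup.zero _ _
      · exact Sup.sx (hS x y l hl e)

end Pool.Agent.Lib.MP_2fb4be_al
end

-- part Pool.Agent.Lib.MP_2fb4be_al.Comb
section

/-!
An automatic group has a system of balls in which cycles have polynomial fillings.
-/

set_option autoImplicit false

namespace Pool.Agent.Lib.MP_2fb4be_al

variable {G : Type} [Group G]

/-- A system of balls around the identity, as for a word metric. -/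
structure Balls (B : ℕ → G → Prop) : Prop where
  one : B 0 1
  mono : ∀ {R R' g}, R ≤ R' → B R g → B R' g
  mul : ∀ {R R' g h}, B R g → B R' h → B (R + R') (g * h)
  inv : ∀ {R g}, B R g → B R g⁻¹
  fin : ∀ R, {g | B R g}.Finite
  ex : ∀ g, ∃ R, B R g
  zero : ∀ {g}, B 0 g → g = 1
  succ : ∀ {R g}, B (R + 1) g → ∃ h s, B R h ∧ B 1 s ∧ g = h * s

/-- Simplices of bounded mesh and radius. -/
def Mesh (B : ℕ → G → Prop) (n R D : ℕ) (l : List G) : Prop :=
  l.length = n ∧ (∀ x ∈ l, ∀ y ∈ l, B R (x⁻¹ * y)) ∧ ∀ x ∈ l, B D x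

/-- Cycles have polynomial fillings. -/
def Cone (B : ℕ → G → Prop) : Prop :=
  ∃ k C : ℕ, ∀ (n R D N : ℕ) (z : Ch G), bd z = 0 → Sup z (Mesh B n R D) N →
    ∃ Y, bd Y = z ∧ Sup Y (Mesh B (n + 1) (k * R + 1) (C * (D + 1))) (C * (D + 1) * (N * n) + N)

theorem push_eq_self {X : Type} (φ : X → X) (z : Ch X) (h : ∀ l ∈ z.support, ∀ x ∈ l, φ x = x) :
    push φ z = z := by
  conv_lhs => rw [← z.sum_single, Finsupp.sum, map_sum]
  conv_rhs => rw [← z.sum_single, Finsupp.sum]
  refine Finset.sum_congr rfl fun l hl => ?_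
  have h2 : z l = 1 := (zmod2 _).resolve_left (Finsupp.mem_support_iff.1 hl)
  rw [h2]
  change push φ (sx l) = sx l
  rw [push_sx, List.map_congr_left (h l hl), List.map_id']

theorem cone_of_combing {B : ℕ → G → Prop} (hB : Balls B) (p : ℕ → G → G) (k C : ℕ)
    (h0 : ∀ g, p 0 g = 1) (h1 : ∀ t g, B 1 ((p t g)⁻¹ * p (t + 1) g))
    (h2 : ∀ t g h R, B R (g⁻¹ * h) → B (k * R) ((p t g)⁻¹ * p t h))
    (h3 : ∀ g D, B D g → p (C * (D + 1)) g = g) : Cone B := by
  refine ⟨k, C, fun n R D N z hz hs => ?_⟩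
  have h4 : ∀ t g, B t (p t g) := by
    intro t g
    induction t with
    | zero => rw [h0]; exact hB.one
    | succ t ih => simpa using hB.mul ih (h1 t g)
  have tel : ∀ T, bd (∑ t ∈ Finset.range T, pr (p t) (p (t + 1)) z + cn 1 (push (p 0) z)) =
      push (p T) z := by
    intro T
    induction T with
    | zero => simp [bd_cn, bd_push, hz]
    | succ T ih =>
      rw [Finset.sum_range_succ, add_right_comm, map_add, ih, bd_pr, hz, map_zero, zero_add,
        ← add_assoc, add_self, zero_add]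
  refine ⟨_, (tel (C * (D + 1))).trans
    (push_eq_self _ _ fun l hl x hx => h3 x D ((hs.2 l hl).2.2 x hx)), Sup.add ?_ ?_⟩
  · have := Sup.sum (Finset.range (C * (D + 1))) (c := fun t => pr (p t) (p (t + 1)) z)
      (S := Mesh B (n + 1) (k * R + 1) (C * (D + 1))) (N := N * n) fun t ht => by
        have ht' := Finset.mem_range.1 ht
        refine hs.pr _ _ (fun l hl => hl.1) fun l m hl hm hx => ⟨hm, fun y hy y' hy' => ?_,
          fun y hy => ?_⟩
        · obtain ⟨x, hx1, e⟩ := hx y hy
          obtain ⟨x', hx1', e'⟩ := hx y' hy'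
          have a1 := hl.2.1 x hx1 x' hx1'
          rcases e with rfl | rfl <;> rcases e' with rfl | rfl
          · exact hB.mono (by omega) (h2 t _ _ _ a1)
          · simpa [mul_assoc] using hB.mul (h2 t _ _ _ a1) (h1 t x')
          · have := hB.mul (hB.inv (h1 t x)) (h2 t _ _ _ a1)
            rw [add_comm] at this
            simpa [mul_assoc] using this
          · exact hB.mono (by omega) (h2 (t + 1) _ _ _ a1)
        · obtain ⟨x, -, rfl | rfl⟩ := hx y hy
          · exact hB.mono (by omega) (h4 _ _)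
          · exact hB.mono (by omega) (h4 _ _)
    rwa [Finset.card_range] at this
  · refine (hs.push (S' := fun m => m.length = n ∧ ∀ y ∈ m, y = 1) _ fun l hl => ?_).cn _ ?_
    · refine ⟨by simpa using hl.1, fun y hy => ?_⟩
      obtain ⟨x, -, rfl⟩ := List.mem_map.1 hy
      exact h0 x
    · rintro m ⟨a1, a2⟩
      have a3 : ∀ y ∈ (1 : G) :: m, y = 1 := by
        intro y hy
        rcases List.mem_cons.1 hy with rfl | hy
        · rfl
        · exact a2 y hy
      refine ⟨by simp [a1], fun y hy y' hy' => ?_, fun y hy => ?_⟩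
      · rw [a3 y hy, a3 y' hy', inv_one, mul_one]
        exact hB.mono (Nat.zero_le _) hB.one
      · rw [a3 y hy]
        exact hB.mono (Nat.zero_le _) hB.one

theorem IsAutomatic.cone (hG : IsAutomatic G) : ∃ B : ℕ → G → Prop, Balls B ∧ Cone B := by
  classical
  obtain ⟨A, _, f, L, k, -, hinv, ⟨σ, _, M, hM⟩, hsurj, hft⟩ := hG
  let B : ℕ → G → Prop := fun R g => ∃ w : List A, w.length ≤ R ∧ (w.map f).prod = g
  have hB : Balls B := by
    refine ⟨⟨[], le_rfl, rfl⟩, ?_, ?_, ?_, ?_, ?_, ?_, ?_⟩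
    · rintro R R' g h ⟨w, h1, h2⟩
      exact ⟨w, h1.trans h, h2⟩
    · rintro R R' g h ⟨w, h1, rfl⟩ ⟨w', h1', rfl⟩
      exact ⟨w ++ w', by simp; omega, by simp⟩
    · rintro R g ⟨w, h1, rfl⟩
      choose i hi using hinv
      refine ⟨(w.map i).reverse, by simpa using h1, ?_⟩
      clear h1
      induction w with
      | nil => simp
      | cons a w ih =>
        simp only [List.map_cons, List.reverse_cons, List.map_append, List.prod_append, ih]
        simp [hi]
    · intro R
      refine ((List.finite_length_le A R).image fun w => (w.map f).prod).subset ?_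
      rintro g ⟨w, h1, h2⟩
      exact ⟨w, h1, h2⟩
    · intro g
      obtain ⟨w, -, h⟩ := hsurj g
      exact ⟨_, w, le_rfl, h⟩
    · rintro g ⟨w, h1, rfl⟩
      rw [List.length_eq_zero_iff.1 (Nat.le_zero.1 h1)]
      rfl
    · rintro R g ⟨w, h1, rfl⟩
      rcases List.eq_nil_or_concat w with rfl | ⟨l, a, rfl⟩
      · exact ⟨1, 1, ⟨[], by simp, rfl⟩, ⟨[], by simp, rfl⟩, by simp⟩
      · exact ⟨_, _, ⟨l, by simpa using h1, rfl⟩, ⟨[a], le_rfl, rfl⟩, by simp⟩
  have hmin : ∀ g : G, ∃ w, w ∈ L ∧ (w.map f).prod = g ∧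
      ∀ v ∈ L, (v.map f).prod = g → w.length ≤ v.length := by
    intro g
    have hex : ∃ n, ∃ w, w ∈ L ∧ (w.map f).prod = g ∧ w.length = n := by
      obtain ⟨w, h1, h2⟩ := hsurj g
      exact ⟨_, w, h1, h2, rfl⟩
    obtain ⟨w, h1, h2, h3⟩ := Nat.find_spec hex
    exact ⟨w, h1, h2, fun v hv e => h3 ▸ Nat.find_min' hex ⟨v, hv, e, rfl⟩⟩
  choose c hcL hcv hcm using hmin
  have hft' : ∀ g s, B 1 s → ∀ t, B k ((((c g).take t).map f).prod⁻¹ *
      (((c (g * s)).take t).map f).prod) := by
    rintro g s ⟨w, h1, rfl⟩ t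
    obtain ⟨u, h2, h3⟩ := hft (c g) (hcL g) (c (g * (w.map f).prod)) (hcL _)
      ⟨w, h1, by rw [hcv, hcv]⟩ t
    exact ⟨u, h2, by rw [← h3]; simp⟩
  let N0 : ℕ := (Finset.univ (α := σ) ×ˢ (hB.fin k).toFinset).card
  have hlen : ∀ g s, B 1 s → (c (g * s)).length ≤ (c g).length + N0 := by
    intro g s hs
    by_contra hlt
    push Not at hlt
    set v := c (g * s) with hv
    obtain ⟨i, hi, j, hj, hij, e⟩ := Finset.exists_ne_map_eq_of_card_lt_of_maps_to
      (s := Finset.range (N0 + 1)) (t := Finset.univ (α := σ) ×ˢ (hB.fin k).toFinset)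
      (by simp [N0])
      (f := fun i => (M.eval (v.take ((c g).length + i)),
        g⁻¹ * ((v.take ((c g).length + i)).map f).prod)) (by
        intro i _
        have := hft' g s hs ((c g).length + i)
        rw [List.take_of_length_le (by omega), hcv] at this
        simpa using this)
    have key : ∀ i j, i < j → j < N0 + 1 →
        M.eval (v.take ((c g).length + i)) = M.eval (v.take ((c g).length + j)) →
        ((v.take ((c g).length + i)).map f).prod = ((v.take ((c g).length + j)).map f).prod →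
        False := by
      intro i j h1 h2 e1 e2
      have a1 : v.take ((c g).length + i) ++ v.drop ((c g).length + j) ∈ L := by
        have a0 : v ∈ L := hcL _
        rw [← hM, DFA.mem_accepts] at a0 ⊢
        rw [← List.take_append_drop ((c g).length + j) v] at a0
        unfold DFA.eval at *
        rwa [DFA.evalFrom_of_append, ← e1, ← DFA.evalFrom_of_append] at a0
      have a2 := hcm (g * s) _ a1 (by
        rw [List.map_append, List.prod_append, e2, ← List.prod_append, ← List.map_append,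
          List.take_append_drop, hv, hcv])
      rw [← hv] at a2
      simp only [List.length_append, List.length_take, List.length_drop] at a2
      omega
    simp only [Prod.mk.injEq, mul_right_inj] at e
    rcases lt_or_gt_of_ne hij with h | h
    · exact key i j h (Finset.mem_range.1 hj) e.1 e.2
    · exact key j i h (Finset.mem_range.1 hi) e.1.symm e.2.symm
  have hlen2 : ∀ D g, B D g → (c g).length ≤ (c 1).length + N0 * D := by
    intro D
    induction D with
    | zero => intro g hg; rw [hB.zero hg]; simp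
    | succ D ih =>
      intro g hg
      obtain ⟨h, s, h1, h2, rfl⟩ := hB.succ hg
      have := ih h h1
      have := hlen h s h2
      rw [Nat.mul_succ]
      omega
  refine ⟨B, hB, cone_of_combing hB (fun t g => (((c g).take t).map f).prod) k
    ((c 1).length + N0) (fun g => by simp) (fun t g => ?_) (fun t g h R => ?_) (fun g D hg => ?_)⟩
  · rcases lt_or_ge t (c g).length with h | h
    · refine ⟨[(c g)[t]], le_rfl, ?_⟩
      rw [List.take_succ_eq_append_getElem h]
      simp only [List.map_append, List.prod_append, inv_mul_cancel_left]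
    · rw [List.take_of_length_le h, List.take_of_length_le (by omega), inv_mul_cancel]
      exact hB.mono (Nat.zero_le _) hB.one
  · induction R generalizing h with
    | zero =>
      intro hh
      have : h = g := (inv_mul_eq_one.1 (hB.zero hh)).symm
      rw [this, inv_mul_cancel]
      exact hB.one
    | succ R ih =>
      intro hh
      obtain ⟨u, s, h1, h2, h3⟩ := hB.succ hh
      have a1 := ih (g * u) (by simpa using h1)
      have a2 := hft' (g * u) s h2 t
      have e : g * u * s = h := by rw [mul_assoc, ← h3]; simp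
      rw [e] at a2
      simpa [mul_assoc, Nat.mul_succ] using hB.mul a1 a2
  · have := hlen2 D g hg
    rw [List.take_of_length_le (by nlinarith), hcv]

end Pool.Agent.Lib.MP_2fb4be_al
end
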