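import Mathlib
import Pool.Agent.Lib.MP_2fb4be_al.Comb

-- part Pool.Agent.Lib.MP_2fb4be_al.Induct
section

/-!
The induction over the set of places: fillings of labelled cycles give fillings inside
intersections of superlevel sets, and finally a contradiction.
-/

set_option autoImplicit false

namespace Pool.Agent.Lib.MP_2fb4be_al

open Function Filter Topology

theorem poly_lt_two_pow (p : Polynomial ℕ) : ∃ N, 1 ≤ N ∧ p.eval N + 1 < 2 ^ N := by
  have key : ∀ q : Polynomial ℕ,
      Tendsto (fun n : ℕ => ((q.eval n : ℕ) : ℝ) / 2 ^ n) atTop (𝓝 0) := by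
    intro q
    induction q using Polynomial.induction_on' with
    | add p q hp hq =>
      have := hp.add hq
      simp only [add_zero] at this
      refine this.congr fun n => ?_
      simp [add_div]
    | monomial k a =>
      have := (tendsto_pow_const_div_const_pow_of_one_lt k (r := 2) (by norm_num)).const_mul (a : ℝ)
      simp only [mul_zero] at this
      refine this.congr fun n => ?_
      simp [mul_div_assoc]
  obtain ⟨N, h1, h2⟩ := (((key (p + 1)).eventually (gt_mem_nhds one_pos)).and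
    (eventually_ge_atTop 1)).exists
  refine ⟨N, h2, ?_⟩
  rw [div_lt_one (by positivity)] at h1
  simp only [Polynomial.eval_add, Polynomial.eval_one] at h1
  exact_mod_cast h1

variable {G I : Type} (Near : ℕ → G → G → Prop) (Rad : ℕ → G → Prop) (δ : I → G → ℝ)

/-- Good labelled simplices. -/
def Gd (J : Finset I) (n R N : ℕ) (η : ℝ) (l : List (G × (I → Bool))) : Prop :=
  l.length = n ∧ (∀ x ∈ l, ∀ y ∈ l, Near R x.1 y.1) ∧ (∀ x ∈ l, Rad N x.1) ∧
    ∀ j, (j ∈ J ∨ ∃ x ∈ l, ∃ y ∈ l, x.2 j ≠ y.2 j) → ∀ x ∈ l, η ≤ δ j x.1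

/-- Good cycles have good fillings, with polynomial losses. -/
def Fill (J : Finset I) : Prop :=
  ∀ n R : ℕ, ∃ (R' : ℕ) (P : Polynomial ℕ), ∀ (N : ℕ) (η : ℝ), 0 < η → η ≤ 2 ^ N →
    ∀ b : Ch (G × (I → Bool)), bd b = 0 → Sup b (Gd Near Rad δ J n R N η) N →
      ∃ d, bd d = b ∧
        Sup d (Gd Near Rad δ J (n + 1) R' (P.eval N) (η / ((P.eval N : ℕ) + 1))) (P.eval N)

variable {Near Rad δ}

theorem Gd.mono (hN : ∀ R R' g h, R ≤ R' → Near R g h → Near R' g h)
    (hR : ∀ N N' g, N ≤ N' → Rad N g → Rad N' g) {J J' : Finset I} {n R R' N N' : ℕ} {η η' : ℝ}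
    {l : List (G × (I → Bool))} (h : Gd Near Rad δ J n R N η l) (h0 : J' ⊆ J) (h1 : R ≤ R')
    (h2 : N ≤ N') (h3 : η' ≤ η) : Gd Near Rad δ J' n R' N' η' l :=
  ⟨h.1, fun x hx y hy => hN _ _ _ _ h1 (h.2.1 x hx y hy), fun x hx => hR _ _ _ h2 (h.2.2.1 x hx),
    fun j hj x hx => h3.trans (h.2.2.2 j (hj.imp_left fun h => h0 h) x hx)⟩

theorem Gd.modify {J : Finset I} {n n' R N : ℕ} {η : ℝ} {l m : List (G × (I → Bool))}
    (h : Gd Near Rad δ J n R N η l) (j : I) (hm : m.length = n')
    (hx : ∀ y ∈ m, ∃ x ∈ l, y.1 = x.1 ∧ ∀ i, i ≠ j → y.2 i = x.2 i)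
    (hj : j ∈ J ∨ ∀ y ∈ m, ∀ y' ∈ m, y.2 j = y'.2 j) : Gd Near Rad δ J n' R N η m := by
  refine ⟨hm, fun y hy y' hy' => ?_, fun y hy => ?_, fun i hi y hy => ?_⟩
  · obtain ⟨x, hx1, e, -⟩ := hx y hy
    obtain ⟨x', hx1', e', -⟩ := hx y' hy'
    rw [e, e']
    exact h.2.1 x hx1 x' hx1'
  · obtain ⟨x, hx1, e, -⟩ := hx y hy
    rw [e]
    exact h.2.2.1 x hx1
  · obtain ⟨x, hx1, e, -⟩ := hx y hy
    rw [e]
    refine h.2.2.2 i ?_ x hx1
    rcases hi with hi | ⟨z, hz, z', hz', hne⟩
    · exact Or.inl hi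
    · by_cases hij : i = j
      · subst hij
        exact Or.inl (hj.resolve_right fun h => hne (h z hz z' hz'))
      · obtain ⟨w, hw, -, e1⟩ := hx z hz
        obtain ⟨w', hw', -, e2⟩ := hx z' hz'
        exact Or.inr ⟨w, hw, w', hw', by rwa [← e1 i hij, ← e2 i hij]⟩

variable [DecidableEq I]

/-- Change the label at `j`. -/
def setL (j : I) (β : Bool) (x : G × (I → Bool)) : G × (I → Bool) := (x.1, update x.2 j β)

theorem Fill.step (hN : ∀ R R' g h, R ≤ R' → Near R g h → Near R' g h)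
    (hR : ∀ N N' g, N ≤ N' → Rad N g → Rad N' g) {J : Finset I} (h : Fill Near Rad δ J) (j : I) :
    Fill Near Rad δ (insert j J) := by
  intro n R
  obtain ⟨R1, P1, h1⟩ := h n R
  obtain ⟨R3, P3, h3⟩ := h (n + 1) (max R R1)
  let Q : Polynomial ℕ := Polynomial.X * Polynomial.C n + 2 * P1 + Polynomial.X
  refine ⟨max R R3, (P1 + 1) * (P3.comp Q + 1) + Polynomial.X * Polynomial.C n + Polynomial.X,
    fun N η hη hη2 b hb hs => ?_⟩
  have hQ : Q.eval N = N * n + 2 * P1.eval N + N := by simp [Q]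
  have hP : ((P1 + 1) * (P3.comp Q + 1) + Polynomial.X * Polynomial.C n + Polynomial.X).eval N =
      (P1.eval N + 1) * (P3.eval (Q.eval N) + 1) + N * n + N := by
    simp [Polynomial.eval_comp]
  rw [hP]
  obtain ⟨d, hd, hds⟩ := h1 N η hη hη2 b hb (hs.mono
    (fun l hl => hl.mono hN hR (Finset.subset_insert _ _) le_rfl le_rfl le_rfl) le_rfl)
  generalize P1.eval N = N1 at *
  have hset : ∀ (β : Bool) (x : G × (I → Bool)),
      (setL j β x).1 = x.1 ∧ ∀ i, i ≠ j → (setL j β x).2 i = x.2 i :=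
    fun β x => ⟨rfl, fun i hi => update_of_ne hi _ _⟩
  have hη1 : η / ((N1 : ℝ) + 1) ≤ η := div_le_self hη.le (by simp)
  have hpush : ∀ β : Bool, Sup (push (setL j β) d)
      (Gd Near Rad δ J (n + 1) (max R R1) (Q.eval N) (η / ((N1 : ℝ) + 1))) N1 := by
    intro β
    refine hds.push _ fun l hl => ?_
    refine (hl.modify j (by simpa using hl.1) ?_ (Or.inr ?_)).mono hN hR le_rfl (le_max_right _ _)
      (by omega) le_rfl
    · intro y hy
      obtain ⟨x, hx, rfl⟩ := List.mem_map.1 hy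
      exact ⟨x, hx, hset β x⟩
    · intro y hy y' hy'
      obtain ⟨x, hx, rfl⟩ := List.mem_map.1 hy
      obtain ⟨x', hx', rfl⟩ := List.mem_map.1 hy'
      simp [setL]
  have hpr : Sup (pr (setL j false) (setL j true) b)
      (Gd Near Rad δ J (n + 1) (max R R1) (Q.eval N) (η / ((N1 : ℝ) + 1))) (N * n) := by
    refine hs.pr _ _ (fun l hl => hl.1) fun l m hl hm hx => ?_
    refine (hl.modify j hm ?_ (Or.inl (Finset.mem_insert_self _ _))).mono hN hR
      (Finset.subset_insert _ _) (le_max_left _ _) (by omega) hη1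
    intro y hy
    obtain ⟨x, hx, rfl | rfl⟩ := hx y hy
    · exact ⟨x, hx, hset _ x⟩
    · exact ⟨x, hx, hset _ x⟩
  obtain ⟨Y, hY, hYs⟩ := h3 (Q.eval N) (η / ((N1 : ℝ) + 1)) (by positivity)
    (hη1.trans (hη2.trans (pow_le_pow_right₀ (by norm_num) (by omega))))
    (pr (setL j false) (setL j true) b + push (setL j false) d + push (setL j true) d)
    (by
      rw [map_add, map_add, bd_pr, bd_push, bd_push, hb, hd, map_zero, zero_add, add_assoc]
      exact add_self _)
    (((hpr.add (hpush false)).add (hpush true)).mono (fun _ h => h) (by omega))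
  generalize P3.eval (Q.eval N) = N3 at *
  have hle : η / ((((N1 + 1) * (N3 + 1) + N * n + N : ℕ) : ℝ) + 1) ≤
      η / ((N1 : ℝ) + 1) / ((N3 : ℝ) + 1) := by
    rw [div_div]
    refine div_le_div_of_nonneg_left hη.le (by positivity) ?_
    push_cast
    have : (0 : ℝ) ≤ N * n + N := by positivity
    linarith
  have hN3 : N3 ≤ (N1 + 1) * (N3 + 1) := by nlinarith
  refine ⟨cap (fun x => x.2 j) Y + pr id (setL j true) b, ?_, ?_⟩
  · have e0 : ∀ (β : Bool) (x : G × (I → Bool)), (setL j β x).2 j = β := fun β x => by simp [setL]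
    rw [map_add, bd_cap, hY, map_add (mf _), map_add (mf _), mf_pr _ _ _ (e0 false),
      mf_push_false _ _ (e0 false), zero_add, zero_add,
      bd_mf_push_true _ _ (e0 true), bd_push, hd, bd_pr, hb, map_zero, zero_add,
      push_id, add_comm b, ← add_assoc, add_self, zero_add]
  · refine (Sup.add (N := N3) (M := N * n) ?_ ?_).mono (fun _ h => h) (by omega)
    · refine hYs.cap _ (fun l hl => by rw [hl.1]; omega) fun x y l hl hxy => ?_
      have h4 : Gd Near Rad δ (insert j J) (n + 1) R3 N3 (η / ((N1 : ℝ) + 1) / ((N3 : ℝ) + 1))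
          (y :: l) := by
        refine ⟨by simpa using hl.1, fun z hz z' hz' => hl.2.1 z (by simp [hz]) z' (by simp [hz']),
          fun z hz => hl.2.2.1 z (by simp [hz]), fun i hi z hz => hl.2.2.2 i ?_ z (by simp [hz])⟩
        rcases hi with hi | ⟨w, hw, w', hw', hne⟩
        · rcases Finset.mem_insert.1 hi with rfl | hi
          · exact Or.inr ⟨x, by simp, y, by simp, hxy⟩
          · exact Or.inl hi
        · exact Or.inr ⟨w, by simp [hw], w', by simp [hw'], hne⟩
      exact h4.mono hN hR le_rfl (le_max_right _ _) (by omega) hle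
    · refine hs.pr _ _ (fun l hl => hl.1) fun l m hl hm hx => ?_
      refine (hl.modify j hm ?_ (Or.inl (Finset.mem_insert_self _ _))).mono hN hR
        le_rfl (le_max_left _ _) (by omega)
        (div_le_self hη.le (le_add_of_nonneg_left (Nat.cast_nonneg _)))
      intro y hy
      obtain ⟨x, hx, rfl | rfl⟩ := hx y hy
      · exact ⟨y, hx, rfl, fun _ _ => rfl⟩
      · exact ⟨x, hx, hset _ x⟩

theorem not_fill [Fintype I] (hN : ∀ R R' g h, R ≤ R' → Near R g h → Near R' g h)
    (hR : ∀ N N' g, N ≤ N' → Rad N g → Rad N' g) (hδ : ∀ g, ∃ j, δ j g ≤ 1) :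
    ¬ Fill Near Rad δ ∅ := by
  intro h
  have hall : ∀ J : Finset I, Fill Near Rad δ J := by
    intro J
    induction J using Finset.induction_on with
    | empty => exact h
    | insert j J _ ih => exact ih.step hN hR j
  obtain ⟨R', P, hP⟩ := hall Finset.univ 0 0
  obtain ⟨N, h1, h2⟩ := poly_lt_two_pow P
  obtain ⟨d, hd, hs⟩ := hP N (2 ^ N) (by positivity) le_rfl (sx []) (by simp [bdL])
    ((Sup.sx ⟨rfl, by simp, by simp, by simp⟩).mono (fun _ h => h) h1)
  have hd0 : d ≠ 0 := by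
    rintro rfl
    rw [map_zero] at hd
    exact one_ne_zero (Finsupp.single_eq_zero.1 hd.symm)
  obtain ⟨l, hl⟩ := Finsupp.support_nonempty_iff.2 hd0
  obtain ⟨h3, -, -, h4⟩ := hs.2 l hl
  obtain ⟨x, rfl⟩ := List.length_eq_one_iff.1 h3
  obtain ⟨j, hj⟩ := hδ x.1
  have h5 := (h4 j (Or.inl (Finset.mem_univ _)) x (by simp)).trans hj
  rw [div_le_one (by positivity)] at h5
  have h6 : ((P.eval N + 1 : ℕ) : ℝ) < ((2 ^ N : ℕ) : ℝ) := by exact_mod_cast h2
  push_cast at h6
  linarith

end Pool.Agent.Lib.MP_2fb4be_al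
end

-- part Pool.Agent.Lib.MP_2fb4be_al.Lift
section

/-!
An affine action whose normal translation subgroup is a lattice for finitely many absolute values
turns polynomial fillings in the group into fillings of labelled cycles.
-/

set_option autoImplicit false

namespace Pool.Agent.Lib.MP_2fb4be_al

theorem exists_gap (V : Finset ℝ) (m : ℕ) (hm : V.card ≤ m) (E : ℝ) (hE : 0 < E) :
    ∃ t, E / 4 ≤ t - E / (2 * (m + 1)) ∧ t ≤ 3 * E / 4 ∧
      ∀ x ∈ V, x < t - E / (2 * (m + 1)) ∨ t ≤ x := by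
  by_contra h
  push Not at h
  have hw : 0 < E / (2 * (m + 1)) := by positivity
  have hw2 : E / (2 * (m + 1)) * (m + 1) = E / 2 := by field_simp
  generalize E / (2 * (m + 1)) = w at *
  have key : ∀ i : Fin (m + 1), ∃ x ∈ V, E / 4 + i * w ≤ x ∧ x < E / 4 + (i + 1) * w := by
    intro i
    have h1 : (0 : ℝ) ≤ i * w := by positivity
    have h2 : ((i : ℕ) + 1 : ℝ) ≤ m + 1 := by exact_mod_cast i.2
    obtain ⟨x, hx, h3, h4⟩ := h (E / 4 + (i + 1) * w) (by linarith) (by nlinarith)
    exact ⟨x, hx, by linarith, h4⟩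
  choose x hx h1 h2 using key
  have hinj : Function.Injective x := by
    intro i j e
    have a1 : (i : ℝ) < j + 1 := by
      have := (h1 i).trans_lt (e ▸ h2 j)
      exact lt_of_mul_lt_mul_right (by linarith) hw.le
    have a2 : (j : ℝ) < i + 1 := by
      have := (h1 j).trans_lt (e ▸ h2 i)
      exact lt_of_mul_lt_mul_right (by linarith) hw.le
    have a3 : (i : ℕ) < j + 1 := by exact_mod_cast a1
    have a4 : (j : ℕ) < i + 1 := by exact_mod_cast a2
    exact Fin.ext (by omega)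
  have := Finset.card_le_card_of_injOn (s := Finset.univ) (t := V) x (fun i _ => hx i)
    hinj.injOn
  simp at this
  omega

variable {G K P : Type} [Group G] [Field K]

/-- An affine action `z ↦ lin g * z + tr g` with a normal subgroup acting by translations. -/
structure Aff (lin tr : G → K) (A : Subgroup G) : Prop where
  lin_one : lin 1 = 1
  lin_mul : ∀ g h, lin (g * h) = lin g * lin h
  tr_mul : ∀ g h, tr (g * h) = tr g + lin g * tr h
  normal : A.Normal
  lin_A : ∀ a ∈ A, lin a = 1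

namespace Aff

variable {lin tr : G → K} {A : Subgroup G} (h : Aff lin tr A)
include h

theorem lin_inv_mul (g : G) : lin g⁻¹ * lin g = 1 := by rw [← h.lin_mul, inv_mul_cancel, h.lin_one]

theorem lin_ne (g : G) : lin g ≠ 0 := right_ne_zero_of_mul_eq_one (h.lin_inv_mul g)

theorem lin_pow (g : G) (n : ℕ) : lin (g ^ n) = lin g ^ n := by
  induction n with
  | zero => simp [h.lin_one]
  | succ n ih => rw [pow_succ, h.lin_mul, ih, pow_succ]

theorem tr_one : tr 1 = 0 := by
  have := h.tr_mul 1 1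
  rw [mul_one, h.lin_one, one_mul] at this
  exact left_eq_add.1 this

theorem tr_conj (g a : G) (ha : a ∈ A) : tr (g * a * g⁻¹) = lin g * tr a := by
  have e := h.tr_mul g g⁻¹
  rw [mul_inv_cancel, h.tr_one] at e
  rw [h.tr_mul, h.tr_mul, h.lin_mul, h.lin_A a ha]
  linear_combination -e

end Aff

theorem Balls.bdd {B : ℕ → G → Prop} (hB : Balls B) {s : Set G} (hs : s.Finite) :
    ∃ R, ∀ g ∈ s, B R g := by
  choose r hr using hB.ex
  obtain ⟨R, hR⟩ := (hs.image r).bddAbove
  exact ⟨R, fun g hg => hB.mono (hR ⟨g, hg, rfl⟩) (hr g)⟩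

theorem Balls.pow {B : ℕ → G → Prop} (hB : Balls B) {r : ℕ} {g : G} (h : B r g) (n : ℕ) :
    B (r * n) (g ^ n) := by
  induction n with
  | zero => simpa using hB.one
  | succ n ih => rw [pow_succ, Nat.mul_succ]; exact hB.mul ih h

theorem Balls.const [Fintype P] {B : ℕ → G → Prop} (hB : Balls B) (F : P → G → ℝ) (R : ℕ) :
    ∃ c : ℝ, 1 ≤ c ∧ ∀ w, B R w → ∀ j, F j w ≤ c := by
  obtain ⟨c, hc⟩ := (((Set.finite_univ (α := P)).prod (hB.fin R)).image
    fun x => F x.1 x.2).bddAbove
  exact ⟨max 1 c, le_max_left _ _, fun w hw j =>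
    (hc ⟨(j, w), ⟨trivial, hw⟩, rfl⟩).trans (le_max_right _ _)⟩

/-- Distance in the quotient by `A`. -/
def Near (B : ℕ → G → Prop) (A : Subgroup G) (R : ℕ) (g h : G) : Prop :=
  ∃ a ∈ A, B R (g⁻¹ * a * h)

theorem Near.congr {B : ℕ → G → Prop} {A : Subgroup G} (hA : A.Normal) {R : ℕ} {g h a b : G}
    (H : Near B A R g h) (ha : a ∈ A) (hb : b ∈ A) : Near B A R (g * a) (h * b) := by
  obtain ⟨c, hc, H⟩ := H
  refine ⟨g * a * g⁻¹ * c * (h * b⁻¹ * h⁻¹),
    A.mul_mem (A.mul_mem (hA.conj_mem a ha g) hc) (hA.conj_mem _ (A.inv_mem hb) h), ?_⟩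
  convert H using 1
  group

theorem fill_empty [Fintype P] [DecidableEq P] {B : ℕ → G → Prop} (hB : Balls B) (hC : Cone B)
    {lin tr : G → K} {A : Subgroup G} (h : Aff lin tr A) (v : P → AbsoluteValue K ℝ)
    (act : P → Prop)
    (hapx : ∃ C : ℝ, ∀ u : P → K, ∃ a ∈ A, ∀ j, v j (tr a - u j) ≤ C)
    (hfin : ∀ C : ℝ, {a | a ∈ A ∧ ∀ j, v j (tr a) ≤ C}.Finite)
    (hact : ∀ j, act j → ∃ g, 2 ≤ v j (lin g)) :
    Fill (Near B A) (fun N => Near B A N 1) (fun (j : Subtype act) g => v j (lin g)) ∅ := by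
  classical
  obtain ⟨C0, hC0⟩ := hapx
  obtain ⟨C, hC1, hCC⟩ : ∃ C : ℝ, 1 ≤ C ∧ C0 ≤ C := ⟨_, le_max_left 1 C0, le_max_right 1 C0⟩
  have vpos : ∀ j g, 0 < v j (lin g) := fun j g => (v j).pos (h.lin_ne g)
  have hlift : ∀ (g : G) (u : P → K), ∃ a ∈ A, ∀ j, v j (tr (g * a) - u j) ≤ C * v j (lin g) := by
    intro g u
    obtain ⟨a, ha, h1⟩ := hC0 fun j => (u j - tr g) / lin g
    refine ⟨a, ha, fun j => ?_⟩
    have e : tr (g * a) - u j = (tr a - (u j - tr g) / lin g) * lin g := by
      rw [h.tr_mul]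
      field_simp [h.lin_ne g]
      ring
    rw [e, map_mul]
    exact mul_le_mul_of_nonneg_right ((h1 j).trans hCC) (vpos j g).le
  choose α hαA hα using hlift
  have hlinρ : ∀ g u, lin (g * α g u) = lin g := fun g u => by
    rw [h.lin_mul, h.lin_A _ (hαA g u), mul_one]
  have close : ∀ R, ∃ R1, ∀ g g' u u', Near B A R g g' → (∀ j, v j (u j - u' j) ≤ v j (lin g)) →
      B R1 ((g * α g u)⁻¹ * (g' * α g' u')) := by
    intro R
    obtain ⟨c1, -, hc1⟩ := hB.const (fun j w => v j (lin w)) R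
    obtain ⟨c2, -, hc2⟩ := hB.const (fun j w => v j (tr w)) R
    obtain ⟨R0, hR0⟩ := hB.bdd (hfin (C * c1 + 1 + C + c2))
    refine ⟨R0 + R, ?_⟩
    rintro g g' u u' ⟨b, hb, hw⟩ hu
    set w := g⁻¹ * b * g' with hwe
    set c := (g * α g u)⁻¹ * (g' * α g' u') * w⁻¹ with hce
    have hcA : c ∈ A := by
      have e : c = (α g u)⁻¹ * (g⁻¹ * b⁻¹ * g⁻¹⁻¹) * (w * α g' u' * w⁻¹) := by
        rw [hce, hwe]; group
      rw [e]
      exact A.mul_mem (A.mul_mem (A.inv_mem (hαA _ _)) (h.normal.conj_mem _ (A.inv_mem hb) _))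
        (h.normal.conj_mem _ (hαA _ _) _)
    have e1 : g' * α g' u' = g * α g u * (c * w) := by rw [hce]; group
    have e2 : tr (g' * α g' u') = tr (g * α g u) + lin g * (tr c + tr w) := by
      rw [e1, h.tr_mul _ (c * w), hlinρ, h.tr_mul c, h.lin_A c hcA, one_mul]
    have e3 : lin g' = lin g * lin w := by
      rw [← hlinρ g' u', e1, h.lin_mul, hlinρ, h.lin_mul, h.lin_A c hcA, one_mul]
    have e4 : (g * α g u)⁻¹ * (g' * α g' u') = c * w := by rw [hce]; group
    rw [e4]
    refine hB.mul (hR0 c ⟨hcA, fun j => ?_⟩) hw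
    have e5 : lin g * tr c = (tr (g' * α g' u') - u' j) - (u j - u' j) -
        (tr (g * α g u) - u j) - lin g * tr w := by rw [e2]; ring
    have a1 := hα g' u' j
    have a2 := hα g u j
    have a3 := hu j
    have a4 := hc1 w hw j
    have a5 := hc2 w hw j
    have a6 := vpos j g
    rw [e3, map_mul] at a1
    have a7 : v j (lin g) * v j (tr c) ≤ v j (tr (g' * α g' u') - u' j) + v j (u j - u' j) +
        v j (tr (g * α g u) - u j) + v j (lin g) * v j (tr w) := by
      rw [← map_mul, e5, ← map_mul]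
      refine ((v j).sub_le_add _ _).trans (add_le_add_left (((v j).sub_le_add _ _).trans
        (add_le_add_left ((v j).sub_le_add _ _) _)) _)
    refine le_of_mul_le_mul_left (a7.trans ?_) a6
    have a8 : C * (v j (lin g) * v j (lin w)) ≤ C * (v j (lin g) * c1) := by gcongr
    have a9 : v j (lin g) * v j (tr w) ≤ v j (lin g) * c2 := by gcongr
    nlinarith
  have hgen : ∃ (γ : P → G) (r : ℕ), (∀ j, act j → 2 ≤ v j (lin (γ j))) ∧ ∀ j, B r (γ j) := by
    have : ∀ j, ∃ g, act j → 2 ≤ v j (lin g) := fun j => by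
      by_cases hj : act j
      · obtain ⟨g, hg⟩ := hact j hj
        exact ⟨g, fun _ => hg⟩
      · exact ⟨1, fun h => absurd h hj⟩
    choose γ hγ using this
    obtain ⟨r, hr⟩ := hB.bdd (Set.finite_range γ)
    exact ⟨γ, r, hγ, fun j => hr _ ⟨j, rfl⟩⟩
  obtain ⟨γ, r, hγ, hγr⟩ := hgen
  have radius : ∃ C' : ℕ, ∀ (N : ℕ) (u : P → K), (∀ j, ¬ act j → u j = 0) →
      (∀ j, v j (u j) ≤ 2 ^ N) → ∀ g, Near B A N 1 g → B (C' * (N + 1)) (g * α g u) := by
    obtain ⟨R1, hR1⟩ := close 1
    obtain ⟨R0, hR0⟩ := hB.ex (1 * α 1 0)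
    have same : ∀ g (u : P → K) j, v j (u j - u j) ≤ v j (lin g) := fun g u j => by
      rw [sub_self, map_zero]; exact (vpos j g).le
    have path : ∀ u N w, B N w → B (R1 * N) ((1 * α 1 u)⁻¹ * (w * α w u)) := by
      intro u N
      induction N with
      | zero =>
        intro w hw
        rw [hB.zero hw, inv_mul_cancel]
        exact hB.one
      | succ N ih =>
        intro w hw
        obtain ⟨x, s, h1, h2, rfl⟩ := hB.succ hw
        have := hB.mul (ih x h1) (hR1 x (x * s) u u ⟨1, A.one_mem, by simpa using h2⟩ (same x u))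
        rw [Nat.mul_succ]
        convert this using 1
        group
    refine ⟨R0 + Fintype.card P * (R1 * (2 * r + 1)) + R1, fun N u hu0 hu g hg => ?_⟩
    have lab : ∀ s : Finset P, B (R0 + s.card * (R1 * (2 * (r * N) + 1)))
        (1 * α 1 fun j => if j ∈ s then u j else 0) := by
      intro s
      induction s using Finset.induction_on with
      | empty =>
        simp only [Finset.card_empty, zero_mul, add_zero, Finset.notMem_empty, if_false]
        exact hR0
      | insert i s hi ih =>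
        have b1 := path (fun j => if j ∈ s then u j else 0) _ _ (hB.pow (hγr i) N)
        have b2 := hB.inv (path (fun j => if j ∈ insert i s then u j else 0) _ _
          (hB.pow (hγr i) N))
        have b3 := hR1 (γ i ^ N) (γ i ^ N) (fun j => if j ∈ s then u j else 0)
          (fun j => if j ∈ insert i s then u j else 0)
          ⟨1, A.one_mem, by simpa using hB.mono (Nat.zero_le 1) hB.one⟩ (fun j => by
            by_cases hj : j = i
            · subst hj
              simp only [hi, if_false, Finset.mem_insert_self, if_true, zero_sub,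
                AbsoluteValue.map_neg]
              by_cases ha : act j
              · rw [h.lin_pow, map_pow]
                exact (hu j).trans (pow_le_pow_left₀ (by norm_num) (hγ j ha) N)
              · rw [hu0 j ha, map_zero]
                exact (vpos _ _).le
            · simp only [Finset.mem_insert, hj, false_or, sub_self, map_zero]
              exact (vpos _ _).le)
        have b4 := hB.mul (hB.mul (hB.mul ih b1) b3) b2
        rw [Finset.card_insert_of_notMem hi]
        convert b4 using 1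
        · ring
        · group
    obtain ⟨a, ha, hg⟩ := hg
    have b0 := lab Finset.univ
    simp only [Finset.mem_univ, if_true, Finset.card_univ] at b0
    have b1 := path u N _ hg
    have b2 := hR1 (1⁻¹ * a * g) g u u
      ⟨a, ha, by simpa [mul_assoc] using hB.mono (Nat.zero_le 1) hB.one⟩ (same _ u)
    have b3 := hB.mul (hB.mul b0 b1) b2
    have e : 1 * α 1 u * ((1 * α 1 u)⁻¹ * (1⁻¹ * a * g * α (1⁻¹ * a * g) u)) *
        ((1⁻¹ * a * g * α (1⁻¹ * a * g) u)⁻¹ * (g * α g u)) = g * α g u := by group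
    rw [e] at b3
    refine hB.mono ?_ b3
    have : R1 * (2 * (r * N) + 1) ≤ R1 * (2 * r + 1) * (N + 1) := by
      rw [mul_assoc]
      exact Nat.mul_le_mul_left _ (by nlinarith)
    have := Nat.mul_le_mul_left (Fintype.card P) this
    nlinarith
  obtain ⟨C', hrad⟩ := radius
  obtain ⟨k, Cc, hcone⟩ := hC
  obtain ⟨Λ, hΛ1, hΛ⟩ := hB.const (fun j w => v j (lin w)) r
  intro n R
  obtain ⟨R1, hR1⟩ := close R
  obtain ⟨cR, hcR1, hcR⟩ := hB.const (fun j w => v j (lin w)) R
  obtain ⟨c2, hc21, hc2⟩ := hB.const (fun j w => max (v j (lin w)) (v j (tr w))) (k * R1 + 1)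
  obtain ⟨κ, hκ⟩ := exists_nat_ge (2 * Λ * c2 ^ 2 + 4 * Λ * C * cR)
  let T : Polynomial ℕ := Polynomial.C Cc * (Polynomial.C C' * (Polynomial.X + 1) + 1)
  let Mp : Polynomial ℕ := T * (Polynomial.X * Polynomial.C n) + Polynomial.X
  refine ⟨max R (k * R1 + 1), Polynomial.C κ * (Mp * Polynomial.C (n + 1) + 1) + Mp +
    Polynomial.X * Polynomial.C n + T + Polynomial.X, fun N η hη hη2 Z hZ hs => ?_⟩
  have hPe : (Polynomial.C κ * (Mp * Polynomial.C (n + 1) + 1) + Mp +
      Polynomial.X * Polynomial.C n + T + Polynomial.X).eval N =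
      κ * ((Cc * (C' * (N + 1) + 1) * (N * n) + N) * (n + 1) + 1) +
        (Cc * (C' * (N + 1) + 1) * (N * n) + N) + N * n + Cc * (C' * (N + 1) + 1) + N := by
    simp [T, Mp]
  rw [hPe]
  have hjump : ∀ j, ∃ e : K, act j → η / Λ ≤ v j e ∧ v j e ≤ η := by
    intro j
    by_cases hj : act j
    · have b1 := hγ j hj
      obtain ⟨m, hm1, hm2⟩ := exists_mem_Ico_zpow hη (show 1 < v j (lin (γ j)) by linarith)
      refine ⟨lin (γ j) ^ m, fun _ => ?_⟩
      rw [map_zpow₀]
      refine ⟨?_, hm1⟩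
      rw [zpow_add_one₀ (by linarith)] at hm2
      rw [div_le_iff₀ (by linarith)]
      exact hm2.le.trans (mul_le_mul_of_nonneg_left (hΛ _ (hγr j) j) (by positivity))
    · exact ⟨0, fun h => absurd h hj⟩
  choose e he using hjump
  let u : (Subtype act → Bool) → P → K := fun ε j =>
    if hj : act j then (if ε ⟨j, hj⟩ then e j else 0) else 0
  have hu : ∀ ε (j : Subtype act), u ε j = if ε j then e j else 0 := fun ε j => by
    simp only [u, dif_pos j.2]
  let ρ : G × (Subtype act → Bool) → G := fun x => x.1 * α x.1 (u x.2)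
  obtain ⟨Y, hY, hYs⟩ := hcone n R1 (C' * (N + 1)) N (push ρ Z) (by rw [bd_push, hZ, map_zero])
    (hs.push ρ fun l hl => by
      refine ⟨by simpa using hl.1, fun y hy y' hy' => ?_, fun y hy => ?_⟩
      · obtain ⟨x, hx, rfl⟩ := List.mem_map.1 hy
        obtain ⟨x', hx', rfl⟩ := List.mem_map.1 hy'
        refine hR1 _ _ _ _ (hl.2.1 x hx x' hx') fun j => ?_
        by_cases hj : act j
        · by_cases hb : x.2 ⟨j, hj⟩ = x'.2 ⟨j, hj⟩
          · rw [hu _ ⟨j, hj⟩, hu _ ⟨j, hj⟩, hb, sub_self, map_zero]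
            exact (vpos _ _).le
          · refine le_trans ?_ (hl.2.2.2 ⟨j, hj⟩ (Or.inr ⟨x, hx, x', hx', hb⟩) x hx)
            rw [hu _ ⟨j, hj⟩, hu _ ⟨j, hj⟩]
            split_ifs
            · simpa using hη.le
            · simpa using (he j hj).2
            · simpa using (he j hj).2
            · simpa using hη.le
        · simp only [u, dif_neg hj, sub_self, map_zero]
          exact (vpos _ _).le
      · obtain ⟨x, hx, rfl⟩ := List.mem_map.1 hy
        refine hrad N _ (fun j hj => by simp only [u, dif_neg hj]) (fun j => ?_) _ (hl.2.2.1 x hx)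
        simp only [u]
        split_ifs with h1 h2
        · exact (he j h1).2.trans hη2
        · simp
        · simp)
  generalize Cc * (C' * (N + 1) + 1) = T0 at *
  generalize T0 * (N * n) + N = M at *
  let V : Finset G := Y.support.biUnion List.toFinset
  have hV : V.card ≤ M * (n + 1) := by
    refine (Finset.card_biUnion_le_card_mul _ _ (n + 1) fun l hl => ?_).trans
      (Nat.mul_le_mul_right _ hYs.1)
    exact (List.toFinset_card_le l).trans (hYs.2 l hl).1.le
  have hepos : ∀ j : Subtype act, 0 < v j (e j) := fun j =>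
    lt_of_lt_of_le (by positivity) (he j j.2).1
  choose t ht1 ht2 ht3 using fun j : Subtype act => exists_gap (V.image fun g => v j (tr g))
    (M * (n + 1)) (Finset.card_image_le.trans hV) (v j (e j)) (hepos j)
  let Φ : G → G × (Subtype act → Bool) := fun g => (g, fun j => decide (t j ≤ v j (tr g)))
  set m : ℝ := ((M * (n + 1) : ℕ) : ℝ) + 1 with hm
  have hm1 : 1 ≤ m := le_add_of_nonneg_left (Nat.cast_nonneg _)
  set η' : ℝ := η / (((κ * (M * (n + 1) + 1) + M + N * n + T0 + N : ℕ) : ℝ) + 1) with hη'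
  have hη'le : ∀ x : ℝ, 0 < x → x ≤ κ * m + 1 → η' ≤ η / x := by
    intro x hx0 hx
    refine div_le_div_of_nonneg_left hη.le hx0 (hx.trans ?_)
    rw [hm]
    push_cast
    have : (0 : ℝ) ≤ M + N * n + T0 + N := by positivity
    linarith
  have hκ0 : (0 : ℝ) ≤ κ * m := by positivity
  refine ⟨push Φ Y + pr id (Φ ∘ ρ) Z, ?_,
    (Sup.add (N := M) (M := N * n) ?_ ?_).mono (fun _ h => h) (by omega)⟩
  · rw [map_add, bd_push, hY, push_push, bd_pr, hZ, map_zero, zero_add, push_id, add_comm Z,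
      ← add_assoc, add_self, zero_add]
  · have hYs' : Sup Y (fun l => Mesh B (n + 1) (k * R1 + 1) T0 l ∧ ∀ g ∈ l, g ∈ V) M :=
      ⟨hYs.1, fun l hl => ⟨hYs.2 l hl, fun g hg =>
        Finset.mem_biUnion.2 ⟨l, hl, List.mem_toFinset.2 hg⟩⟩⟩
    refine hYs'.push Φ ?_
    rintro l ⟨hl, hlV⟩
    refine ⟨by simpa using hl.1, fun y hy y' hy' => ?_, fun y hy => ?_, fun j hj y hy => ?_⟩
    · obtain ⟨x, hx, rfl⟩ := List.mem_map.1 hy
      obtain ⟨x', hx', rfl⟩ := List.mem_map.1 hy'
      exact ⟨1, A.one_mem, hB.mono (le_max_right _ _) (by simpa using hl.2.1 x hx x' hx')⟩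
    · obtain ⟨x, hx, rfl⟩ := List.mem_map.1 hy
      exact ⟨1, A.one_mem, hB.mono (R := T0) (by omega) (by simpa using hl.2.2 x hx)⟩
    · obtain ⟨x, hx, rfl⟩ := List.mem_map.1 hy
      obtain ⟨y1, hy1, y2, hy2, hne⟩ := hj.resolve_left (by simp)
      obtain ⟨g1, hg1, rfl⟩ := List.mem_map.1 hy1
      obtain ⟨g2, hg2, rfl⟩ := List.mem_map.1 hy2
      have key : ∀ g1 ∈ l, ∀ g2 ∈ l, ¬ t j ≤ v j (tr g1) → t j ≤ v j (tr g2) →
          η' ≤ v j (lin x) := by
        intro g1 hg1 g2 hg2 n1 n2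
        have b1 := (ht3 j _ (Finset.mem_image_of_mem _ (hlV g1 hg1))).resolve_right n1
        have b2 : v j (tr g2) ≤ v j (tr g1) + v j (lin g1) * v j (tr (g1⁻¹ * g2)) := by
          rw [← map_mul]
          refine le_trans (le_of_eq ?_) ((v j).add_le _ _)
          rw [← h.tr_mul, mul_inv_cancel_left]
        have b3 := (le_max_right _ _).trans (hc2 _ (hl.2.1 g1 hg1 g2 hg2) j)
        have b4 := (le_max_left _ _).trans (hc2 _ (hl.2.1 x hx g1 hg1) j)
        have b5 : v j (lin g1) = v j (lin x) * v j (lin (x⁻¹ * g1)) := by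
          rw [← map_mul, ← h.lin_mul, mul_inv_cancel_left]
        have b6 := vpos j x
        have b7 : v j (lin g1) * v j (tr (g1⁻¹ * g2)) ≤ v j (lin x) * c2 * c2 := by
          rw [b5]
          have := (v j).nonneg (tr (g1⁻¹ * g2))
          gcongr
        have b8 : η / Λ / (2 * m) ≤ v j (e j) / (2 * m) := by
          gcongr
          exact (he j j.2).1
        have b9 : η / Λ / (2 * m) ≤ v j (lin x) * c2 * c2 := by linarith
        refine (hη'le (2 * Λ * c2 ^ 2 * m) (by positivity) ?_).trans ?_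
        · have : 0 ≤ 4 * Λ * C * cR := by positivity
          have : 2 * Λ * c2 ^ 2 * m ≤ κ * m := by gcongr; linarith
          linarith
        · rw [div_div, div_le_iff₀ (by positivity)] at b9
          rw [div_le_iff₀ (by positivity)]
          linarith
      simp only [Φ, ne_eq, decide_eq_decide] at hne
      by_cases c1 : t j ≤ v j (tr g1)
      · exact key g2 hg2 g1 hg1 (fun c => hne ⟨fun _ => c, fun _ => c1⟩) c1
      · exact key g1 hg1 g2 hg2 c1 (by by_contra c; exact hne ⟨fun a => absurd a c1,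
          fun a => absurd a c⟩)
  · refine hs.pr _ _ (fun l hl => hl.1) fun l l' hl hl' hx => ?_
    have hx1 : ∀ y ∈ l', ∃ x ∈ l, ∃ a ∈ A, y.1 = x.1 * a := by
      intro y hy
      obtain ⟨x, hx, rfl | rfl⟩ := hx y hy
      · exact ⟨y, hx, 1, A.one_mem, by simp⟩
      · exact ⟨x, hx, _, hαA _ _, rfl⟩
    refine ⟨hl', fun y hy y' hy' => ?_, fun y hy => ?_, fun j hj y hy => ?_⟩
    · obtain ⟨x, hx, a, ha, e1⟩ := hx1 y hy
      obtain ⟨x', hx', a', ha', e2⟩ := hx1 y' hy'
      rw [e1, e2]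
      obtain ⟨b, hb, H⟩ := (hl.2.1 x hx x' hx').congr h.normal ha ha'
      exact ⟨b, hb, hB.mono (le_max_left _ _) H⟩
    · obtain ⟨x, hx, a, ha, e1⟩ := hx1 y hy
      obtain ⟨b, hb, H⟩ := (hl.2.2.1 x hx).congr h.normal A.one_mem ha
      rw [e1]
      exact ⟨b, hb, hB.mono (R := N) (by omega) (by simpa using H)⟩
    · obtain ⟨x, hx0, a, ha, e1⟩ := hx1 y hy
      have e2 : lin y.1 = lin x.1 := by rw [e1, h.lin_mul, h.lin_A a ha, mul_one]
      change η' ≤ v j (lin y.1)
      rw [e2]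
      by_cases hc : ∃ z ∈ l, ∃ z' ∈ l, z.2 j ≠ z'.2 j
      · refine le_trans ?_ (hl.2.2.2 j (Or.inr hc) x hx0)
        simpa using hη'le 1 one_pos (by linarith)
      push Not at hc
      have hbad : ∃ z ∈ l, (Φ (ρ z)).2 j ≠ z.2 j := by
        by_contra hno
        push Not at hno
        obtain ⟨y1, hy1, y2, hy2, hne⟩ := hj.resolve_left (by simp)
        have : ∀ y ∈ l', y.2 j = x.2 j := by
          intro y hy
          obtain ⟨z, hz, rfl | rfl⟩ := hx y hy
          · exact hc _ hz _ hx0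
          · exact (hno z hz).trans (hc _ hz _ hx0)
        exact hne ((this _ hy1).trans (this _ hy2).symm)
      obtain ⟨z, hz, hzne⟩ := hbad
      have b0 : 0 < v j (e j) / (2 * m) := by have := hepos j; positivity
      have b1 : v j (e j) / 4 ≤ C * v j (lin z.1) := by
        have b2 := hα z.1 (u z.2) j
        have b3 := ht1 j
        have b4 := ht2 j
        rw [hu] at b2
        simp only [Φ, ρ] at hzne
        cases hb : z.2 j
        · rw [hb] at hzne b2
          simp only [ne_eq, decide_eq_false_iff_not, not_not] at hzne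
          simp only [Bool.false_eq_true, if_false, sub_zero] at b2
          linarith
        · rw [hb] at hzne b2
          simp only [ne_eq, decide_eq_true_eq, not_le] at hzne
          simp only [if_true] at b2
          have b5 := (v j).sub_le_add (tr (z.1 * α z.1 (u z.2))) (tr (z.1 * α z.1 (u z.2)) - e j)
          rw [sub_sub_cancel] at b5
          linarith
      obtain ⟨b, hb, hw⟩ := hl.2.1 x hx0 z hz
      have b6 : v j (lin z.1) ≤ v j (lin x.1) * cR := by
        have e3 : lin z.1 = lin x.1 * lin (x.1⁻¹ * b * z.1) := by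
          rw [← h.lin_mul, mul_assoc, mul_inv_cancel_left, h.lin_mul, h.lin_A b hb, one_mul]
        rw [e3, map_mul]
        exact mul_le_mul_of_nonneg_left (hcR _ hw j) (vpos _ _).le
      refine (hη'le (4 * Λ * C * cR) (by positivity) ?_).trans ?_
      · have : 0 ≤ 2 * Λ * c2 ^ 2 := by positivity
        have : (κ : ℝ) * 1 ≤ κ * m := by gcongr
        linarith
      · have b7 := (he j j.2).1
        rw [div_le_iff₀ (by positivity)] at b7 ⊢
        have b8 : C * v j (lin z.1) ≤ C * (v j (lin x.1) * cR) := by gcongr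
        have b9 : v j (e j) * Λ ≤ 4 * (C * (v j (lin x.1) * cR)) * Λ := by
          gcongr
          linarith
        linarith

theorem no_act [Fintype P] (hG : IsAutomatic G) {lin tr : G → K} {A : Subgroup G}
    (h : Aff lin tr A) (v : P → AbsoluteValue K ℝ)
    (hapx : ∃ C : ℝ, ∀ u : P → K, ∃ a ∈ A, ∀ j, v j (tr a - u j) ≤ C)
    (hfin : ∀ C : ℝ, {a | a ∈ A ∧ ∀ j, v j (tr a) ≤ C}.Finite)
    (hprod : ∀ g, (∀ j, 1 ≤ v j (lin g)) → ∀ j, v j (lin g) = 1) (g : G) (j : P) :
    v j (lin g) = 1 := by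
  classical
  by_contra hne
  obtain ⟨B, hB, hC⟩ := hG.cone
  refine not_fill (fun R R' g g' hR ⟨a, ha, H⟩ => ⟨a, ha, hB.mono hR H⟩)
    (fun R R' g hR ⟨a, ha, H⟩ => ⟨a, ha, hB.mono hR H⟩) (fun g' => ?_)
    (fill_empty hB hC h v (fun j => ∃ g, v j (lin g) ≠ 1) hapx hfin ?_)
  · by_contra hno
    push Not at hno
    have h1 := hprod g' (fun i => by
      by_cases hi : ∃ g, v i (lin g) ≠ 1
      · exact (hno ⟨i, hi⟩).le
      · push Not at hi
        exact (hi g').ge) j
    exact (hno ⟨j, g, hne⟩).ne' h1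
  · rintro i ⟨x, hx⟩
    have : ∃ y, 1 < v i (lin y) := by
      rcases lt_or_gt_of_ne hx with h1 | h1
      · refine ⟨x⁻¹, ?_⟩
        have e := congrArg (v i) (h.lin_inv_mul x)
        rw [map_mul, map_one] at e
        have := (v i).pos (h.lin_ne x)
        nlinarith
      · exact ⟨x, h1⟩
    obtain ⟨y, hy⟩ := this
    obtain ⟨n, hn⟩ := pow_unbounded_of_one_lt 2 hy
    exact ⟨y ^ n, by rw [h.lin_pow, map_pow]; exact hn.le⟩

end Pool.Agent.Lib.MP_2fb4be_al
end

-- part Pool.Agent.Lib.MP_2fb4be_al.NF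
section

/-!
The case of number fields: approximation, finiteness and the product formula.
-/

set_option autoImplicit false

namespace Pool.Agent.Lib.MP_2fb4be_al

open NumberField IsDedekindDomain

variable {K : Type} [Field K] [NumberField K]

theorem fp_le_iff (w : FinitePlace K) (x y : K) :
    w x ≤ w y ↔ w.maximalIdeal.valuation K x ≤ w.maximalIdeal.valuation K y := by
  rw [← FinitePlace.norm_embedding_eq, ← FinitePlace.norm_embedding_eq,
    FinitePlace.norm_embedding', FinitePlace.norm_embedding', NNReal.coe_le_coe]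
  exact (WithZeroMulInt.toNNReal_strictMono
    (HeightOneSpectrum.one_lt_absNorm_nnreal w.maximalIdeal)).le_iff_le

theorem fp_int (w : FinitePlace K) (y : 𝓞 K) : w (y : K) ≤ 1 := by
  rw [← FinitePlace.norm_embedding_eq]
  exact FinitePlace.norm_le_one K _ y

theorem int_of_fp {x : K} (h : ∀ w : FinitePlace K, w x ≤ 1) : IsIntegral ℤ x := by
  obtain ⟨y, rfl⟩ := HeightOneSpectrum.mem_integers_of_valuation_le_one (R := 𝓞 K) K x fun v => by
    have := (fp_le_iff (FinitePlace.mk v) x 1).1 (by rw [map_one]; exact h _)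
    rwa [FinitePlace.maximalIdeal_mk, map_one] at this
  exact y.2

theorem semilocal (S : Finset (FinitePlace K)) (t : FinitePlace K → K) 
    (ht : ∀ w : FinitePlace K, w (t w) ≤ 1)
    (μ : K) (hμ : μ ≠ 0) : ∃ y : 𝓞 K, ∀ w ∈ S, w (y - t w) ≤ w μ := by
  have h1 : ∀ w : FinitePlace K, ∃ a : 𝓞 K,
      w.maximalIdeal.valuation K (a - t w) ≤ w.maximalIdeal.valuation K μ := by
    intro w
    have h0 : w.maximalIdeal.valuation K μ ≠ 0 := (Valuation.ne_zero_iff _).2 hμ
    obtain ⟨a, ha⟩ := w.maximalIdeal.exists_valuation_sub_lt_of_integer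
      (x := t w) (by simpa using (fp_le_iff w (t w) 1).1 (by simpa using ht w)) (Units.mk0 _ h0)
    exact ⟨a, ha.le⟩
  have h2 : ∀ w : FinitePlace K, ∃ n : ℕ,
      WithZero.exp (-(n : ℤ)) ≤ w.maximalIdeal.valuation K μ := by
    intro w
    have h0 : w.maximalIdeal.valuation K μ ≠ 0 := (Valuation.ne_zero_iff _).2 hμ
    refine ⟨(WithZero.log (w.maximalIdeal.valuation K μ)).natAbs, ?_⟩
    rw [← WithZero.exp_log h0, WithZero.exp_le_exp, WithZero.log_exp]
    omega
  choose a ha using h1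
  choose n hn using h2
  obtain ⟨y, hy⟩ := IsDedekindDomain.exists_forall_sub_mem_ideal (s := S)
    (fun w => w.maximalIdeal.asIdeal) n (fun w _ => w.maximalIdeal.prime)
    (fun i _ j _ hij e => hij (FinitePlace.maximalIdeal_injective (HeightOneSpectrum.ext e)))
    (fun w => a w)
  refine ⟨y, fun w hw => (fp_le_iff w _ _).2 ?_⟩
  have h3 := (w.maximalIdeal.intValuation_le_pow_iff_mem _ _).2 (hy w hw)
  rw [← HeightOneSpectrum.valuation_of_algebraMap (K := K)] at h3
  have e : (y : K) - t w = ((y - a w : 𝓞 K) : K) + (a w - t w) := by push_cast; ring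
  rw [e]
  exact Valuation.map_add_le _ (h3.trans (hn w)) (ha w)

theorem inf_approx : ∃ C : ℝ, ∀ u : InfinitePlace K → K, ∃ y : 𝓞 K,
    ∀ w : InfinitePlace K, w (y - u w) ≤ C := by
  classical
  refine ⟨1 + ∑ w : InfinitePlace K, ∑ i, w (integralBasis K i), fun u => ?_⟩
  obtain ⟨z, hz⟩ := Metric.denseRange_iff.1 (InfinitePlace.denseRange_algebraMap_pi K)
    (fun w => (WithAbs.equiv w.1).symm (u w)) 1 one_pos
  refine ⟨∑ i, ⌊(integralBasis K).repr z i⌋ • RingOfIntegers.basis K i, fun w => ?_⟩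
  have h1 : w (z - u w) ≤ 1 := by
    have := (dist_le_pi_dist _ _ w).trans hz.le
    rw [dist_comm, dist_eq_norm] at this
    exact this
  have e : ((∑ i, ⌊(integralBasis K).repr z i⌋ • RingOfIntegers.basis K i : 𝓞 K) : K) - u w =
      (z - u w) - ∑ i, (Int.fract ((integralBasis K).repr z i) : ℚ) • integralBasis K i := by
    simp only [Int.fract, sub_smul, Finset.sum_sub_distrib, Module.Basis.sum_repr]
    simp only [map_sum,
      map_zsmul, integralBasis_apply, Int.cast_smul_eq_zsmul]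
    ring
  rw [e]
  refine (w.1.sub_le_add _ _).trans (add_le_add h1 ?_)
  refine (w.1.sum_le _ _).trans (le_trans (Finset.sum_le_sum fun i _ => ?_)
    (Finset.single_le_sum (f := fun w : InfinitePlace K => ∑ i, w (integralBasis K i))
      (fun w _ => Finset.sum_nonneg fun i _ => apply_nonneg _ _) (Finset.mem_univ w)))
  rw [Algebra.smul_def, map_mul]
  refine mul_le_of_le_one_left (apply_nonneg _ _) ?_
  change w _ ≤ 1
  rw [eq_ratCast, InfinitePlace.map_ratCast, ← Rat.norm_cast_real, Real.norm_eq_abs, abs_le]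
  constructor
  · have := Int.fract_nonneg ((integralBasis K).repr z i)
    have : (0 : ℝ) ≤ (Int.fract ((integralBasis K).repr z i) : ℚ) := by exact_mod_cast this
    linarith
  · exact_mod_cast (Int.fract_lt_one ((integralBasis K).repr z i)).le

theorem fin_bdd (S : Finset (FinitePlace K)) (C : ℝ) :
    {x : K | (∀ w : FinitePlace K, w ∉ S → w x ≤ 1) ∧ (∀ w ∈ S, w x ≤ C) ∧
      ∀ w : InfinitePlace K, w x ≤ C}.Finite := by
  classical
  have h1 : ∀ w : FinitePlace K, ∃ d : 𝓞 K, d ≠ 0 ∧ w (d : K) * C ≤ 1 := by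
    intro w
    obtain ⟨d, hd, hd0⟩ := Submodule.exists_mem_ne_zero_of_ne_bot w.maximalIdeal.ne_bot
    have h2 : w (d : K) < 1 := by
      rw [← FinitePlace.norm_embedding_eq]
      exact (FinitePlace.norm_lt_one_iff_mem K _ d).2 hd
    obtain ⟨n, hn⟩ := exists_pow_lt_of_lt_one (show 0 < 1 / max C 1 by positivity) h2
    refine ⟨d ^ n, pow_ne_zero _ hd0, ?_⟩
    rw [lt_div_iff₀ (by positivity)] at hn
    push_cast
    rw [map_pow]
    exact (mul_le_mul_of_nonneg_left (le_max_left C 1) (by positivity)).trans hn.le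
  choose d hd0 hd using h1
  have hD0 : ((∏ w ∈ S, d w : 𝓞 K) : K) ≠ 0 :=
    RingOfIntegers.coe_ne_zero_iff.2 (Finset.prod_ne_zero_iff.2 fun w _ => hd0 w)
  refine Set.Finite.of_finite_image (f := fun x => ((∏ w ∈ S, d w : 𝓞 K) : K) * x)
    ((Embeddings.finite_of_norm_le K ℂ
      ((∑ w : InfinitePlace K, w ((∏ w ∈ S, d w : 𝓞 K) : K)) * C)).subset ?_)
    (mul_right_injective₀ hD0).injOn
  rintro _ ⟨x, ⟨a1, a2, a3⟩, rfl⟩
  refine ⟨int_of_fp fun w => ?_, (InfinitePlace.le_iff_le _ _).1 fun w => ?_⟩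
  · rw [map_mul]
    by_cases hw : w ∈ S
    · rw [← Finset.mul_prod_erase S d hw]
      push_cast
      rw [map_mul]
      have b1 := fp_int w (∏ v ∈ S.erase w, d v)
      have b2 := hd w
      have b3 := a2 w hw
      have b4 := apply_nonneg w (d w : K)
      have b5 := apply_nonneg w x
      have b6 : w (d w : K) * w x ≤ 1 := (mul_le_mul_of_nonneg_left b3 b4).trans b2
      calc _ = w (d w : K) * w x * w ((∏ v ∈ S.erase w, d v : 𝓞 K) : K) := by push_cast; ring
        _ ≤ 1 := mul_le_one₀ b6 (apply_nonneg _ _) b1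
    · exact mul_le_one₀ (fp_int w _) (apply_nonneg _ _) (a1 w hw)
  · rw [map_mul]
    exact mul_le_mul (Finset.single_le_sum
      (f := fun w : InfinitePlace K => w ((∏ w ∈ S, d w : 𝓞 K) : K))
      (fun w _ => apply_nonneg _ _) (Finset.mem_univ w)) (a3 w) (apply_nonneg _ _)
      (Finset.sum_nonneg fun w _ => apply_nonneg _ _)

theorem eq_one_of_prod {ι : Type} (s : Finset ι) (f : ι → ℝ) (h1 : ∀ i ∈ s, 1 ≤ f i)
    (h : ∏ i ∈ s, f i ≤ 1) : ∀ i ∈ s, f i = 1 := by
  classical
  intro i hi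
  rw [← Finset.mul_prod_erase s f hi] at h
  have h2 : 1 ≤ ∏ j ∈ s.erase i, f j :=
    Finset.one_le_prod fun j hj => h1 j (Finset.mem_of_mem_erase hj)
  have h3 := h1 i hi
  nlinarith

variable {G : Type} [Group G]

theorem nf_core (hG : IsAutomatic G) {lin tr : G → K} {A : Subgroup G} (h : Aff lin tr A)
    (hinj : ∀ a ∈ A, tr a = 0 → a = 1)
    (hsp : ∀ y : K, ∃ n : ℕ, 0 < n ∧ ∃ a ∈ A, tr a = n * y) (g : G) :
    ∃ n : ℕ, 0 < n ∧ lin g ^ n = 1 := by
  classical
  have tr_add : ∀ a ∈ A, ∀ b, tr (a * b) = tr a + tr b := fun a ha b => by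
    rw [h.tr_mul, h.lin_A a ha, one_mul]
  have tr_inv : ∀ a ∈ A, tr a⁻¹ = - tr a := fun a ha => by
    have := tr_add a ha a⁻¹
    rw [mul_inv_cancel, h.tr_one] at this
    linear_combination -this
  have hSfin : {w : FinitePlace K | ∃ g, w (lin g) ≠ 1}.Finite := by
    obtain ⟨B, hB, -⟩ := hG.cone
    refine ((hB.fin 1).biUnion fun s _ => FinitePlace.hasFiniteMulSupport (h.lin_ne s)).subset ?_
    rintro w ⟨x, hx⟩
    by_contra hno
    simp only [Set.mem_iUnion, Function.mem_mulSupport, not_exists, not_not] at hno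
    have key : ∀ R x, B R x → w (lin x) = 1 := by
      intro R
      induction R with
      | zero => intro x hx; rw [hB.zero hx, h.lin_one, map_one]
      | succ R ih =>
        intro x hx
        obtain ⟨y, s, h1, h2, rfl⟩ := hB.succ hx
        rw [h.lin_mul, map_mul, ih y h1, hno s h2, mul_one]
    obtain ⟨R, hR⟩ := hB.ex x
    exact hx (key R x hR)
  set S := hSfin.toFinset with hS
  have hout : ∀ w : FinitePlace K, w ∉ S → ∀ g, w (lin g) = 1 := by
    intro w hw g
    by_contra hne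
    exact hw (hSfin.mem_toFinset.2 ⟨g, hne⟩)
  let A' : Subgroup G :=
    { carrier := {a | a ∈ A ∧ ∀ w : FinitePlace K, w ∉ S → w (tr a) ≤ 1}
      one_mem' := ⟨A.one_mem, fun w _ => by simp [h.tr_one]⟩
      mul_mem' := fun {a b} ha hb => ⟨A.mul_mem ha.1 hb.1, fun w hw => by
        rw [tr_add a ha.1]
        exact (FinitePlace.add_le w _ _).trans
          (max_le (ha.2 w hw) (hb.2 w hw))⟩
      inv_mem' := fun {a} ha => ⟨A.inv_mem ha.1, fun w hw => by
        rw [tr_inv a ha.1, map_neg_eq_map]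
        exact ha.2 w hw⟩ }
  have h' : Aff lin tr A' := by
    refine ⟨h.lin_one, h.lin_mul, h.tr_mul, ⟨fun a ha x => ⟨h.normal.conj_mem a ha.1 x,
      fun w hw => ?_⟩⟩, fun a ha => h.lin_A a ha.1⟩
    rw [h.tr_conj x a ha.1, map_mul, hout w hw, one_mul]
    exact ha.2 w hw
  obtain ⟨N, hN0, hN⟩ : ∃ N : ℕ, 0 < N ∧ ∀ y : 𝓞 K, ∃ a ∈ A, tr a = N * y := by
    choose n hn a ha hta using fun i => hsp (RingOfIntegers.basis K i : K)
    let T : Submodule ℤ (𝓞 K) := AddSubgroup.toIntSubmodule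
      { carrier := {y | ∃ a ∈ A, tr a = ((∏ i, n i : ℕ) : K) * y}
        zero_mem' := ⟨1, A.one_mem, by simp [h.tr_one]⟩
        add_mem' := by
          rintro x y ⟨a, ha, e1⟩ ⟨b, hb, e2⟩
          exact ⟨a * b, A.mul_mem ha hb, by rw [tr_add a ha, e1, e2]; push_cast; ring⟩
        neg_mem' := by
          rintro x ⟨a, ha, e1⟩
          exact ⟨a⁻¹, A.inv_mem ha, by rw [tr_inv a ha, e1]; push_cast; ring⟩ }
    have hT : ⊤ ≤ T := by
      rw [← (RingOfIntegers.basis K).span_eq, Submodule.span_le]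
      rintro _ ⟨i, rfl⟩
      have tr_pow : ∀ m : ℕ, tr (a i ^ m) = m * tr (a i) := by
        intro m
        induction m with
        | zero => simp [h.tr_one]
        | succ m ih => rw [pow_succ', tr_add _ (ha i), ih]; push_cast; ring
      refine ⟨a i ^ (∏ j ∈ Finset.univ.erase i, n j), A.pow_mem (ha i) _, ?_⟩
      rw [tr_pow, hta, ← Finset.mul_prod_erase Finset.univ n (Finset.mem_univ i)]
      push_cast
      ring
    exact ⟨∏ i, n i, Finset.prod_pos fun i _ => hn i, fun y => hT Submodule.mem_top⟩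
  have hNK : (N : K) ≠ 0 := Nat.cast_ne_zero.2 hN0.ne'
  have hNw : ∀ (w : FinitePlace K) (y : 𝓞 K), w (N * y) ≤ 1 := fun w y => by
    simpa using fp_int w (N * y)
  have one_place : ∀ w0 ∈ S, ∀ u : K, ∃ a ∈ A',
      ∀ w ∈ S, w (tr a - if w = w0 then u else 0) ≤ 1 := by
    intro w0 hw0 u
    obtain ⟨x, hx⟩ := hSfin.mem_toFinset.1 hw0
    obtain ⟨y, hy⟩ : ∃ y, 1 < w0 (lin y) := by
      rcases lt_or_gt_of_ne hx with h1 | h1
      · refine ⟨x⁻¹, ?_⟩
        have e := congrArg w0 (h.lin_inv_mul x)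
        rw [map_mul, map_one] at e
        have := (FinitePlace.pos_iff (w := w0)).2 (h.lin_ne x)
        nlinarith
      · exact ⟨x, h1⟩
    obtain ⟨n, hn⟩ := pow_unbounded_of_one_lt (w0 (u / N)) hy
    rw [← map_pow, ← h.lin_pow] at hn
    have hl := h.lin_ne (y ^ n)
    generalize y ^ n = γ at hn hl
    obtain ⟨z, hz⟩ := semilocal S (fun w => if w = w0 then u / N / lin γ else 0) (fun w => by
      split_ifs with e
      · subst e
        rw [map_div₀]
        exact div_le_one_of_le₀ hn.le (apply_nonneg _ _)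
      · simp) (N * lin γ)⁻¹ (inv_ne_zero (mul_ne_zero hNK hl))
    obtain ⟨a, ha, hta⟩ := hN z
    refine ⟨γ * a * γ⁻¹, ⟨h.normal.conj_mem a ha γ, fun w hw => ?_⟩, fun w hw => ?_⟩
    · rw [h.tr_conj γ a ha, map_mul, hout w hw, one_mul, hta]
      exact hNw w z
    · have e : tr (γ * a * γ⁻¹) - (if w = w0 then u else 0) =
          (N * lin γ) * (z - if w = w0 then u / N / lin γ else 0) := by
        rw [h.tr_conj γ a ha, hta]
        split_ifs
        · field_simp
        · ring
      rw [e, map_mul]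
      have b1 := mul_le_mul_of_nonneg_left (hz w hw) (apply_nonneg w (N * lin γ))
      rwa [← map_mul w _ (_⁻¹), mul_inv_cancel₀ (mul_ne_zero hNK hl), map_one] at b1
  have fin_places : ∀ (u : FinitePlace K → K) (s : Finset (FinitePlace K)), s ⊆ S → ∃ a ∈ A',
      ∀ w ∈ S, w (tr a - if w ∈ s then u w else 0) ≤ s.card := by
    intro u s
    induction s using Finset.induction_on with
    | empty => exact fun _ => ⟨1, A'.one_mem, fun w _ => by simp [h.tr_one]⟩
    | insert w0 s hw0 ih =>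
      intro hs
      obtain ⟨a, ha, h1⟩ := ih ((Finset.subset_insert _ _).trans hs)
      obtain ⟨b, hb, h2⟩ := one_place w0 (hs (Finset.mem_insert_self _ _)) (u w0)
      refine ⟨a * b, A'.mul_mem ha hb, fun w hw => ?_⟩
      have e : (tr (a * b) - if w ∈ insert w0 s then u w else 0) =
          (tr a - if w ∈ s then u w else 0) + (tr b - if w = w0 then u w0 else 0) := by
        rw [tr_add a ha.1]
        by_cases c : w = w0
        · subst c
          simp only [Finset.mem_insert_self, if_true, hw0, if_false]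
          ring
        · simp only [Finset.mem_insert, c, false_or, if_false]
          ring
      rw [e, Finset.card_insert_of_notMem hw0]
      push_cast
      exact (w.1.add_le _ _).trans (add_le_add (h1 w hw) (h2 w hw))
  let v : InfinitePlace K ⊕ S → AbsoluteValue K ℝ := Sum.elim (fun w => w.1) (fun w => w.1.1)
  have main := no_act hG h' v ?_ ?_ ?_ g
  · refine (Embeddings.pow_eq_one_of_norm_eq_one K ℂ (int_of_fp fun w => ?_) fun φ => ?_).imp
      fun n hn => ⟨hn.1, hn.2⟩
    · by_cases hw : w ∈ S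
      · exact (main (Sum.inr ⟨w, hw⟩)).le
      · exact (hout w hw g).le
    · exact main (Sum.inl (InfinitePlace.mk φ))
  · obtain ⟨C, hC⟩ := inf_approx (K := K)
    refine ⟨max (N * C) (S.card + 1), fun u => ?_⟩
    obtain ⟨a, ha, h1⟩ := fin_places (fun w => if hw : w ∈ S then u (Sum.inr ⟨w, hw⟩) else 0) S
      le_rfl
    obtain ⟨y, hy⟩ := hC fun w => (u (Sum.inl w) - tr a) / N
    obtain ⟨b, hb, htb⟩ := hN y
    refine ⟨a * b, A'.mul_mem ha ⟨hb, fun w _ => htb ▸ hNw w y⟩, ?_⟩
    rw [tr_add a ha.1, htb]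
    rintro (w | ⟨w, hw⟩)
    · have e : tr a + N * y - u (Sum.inl w) = N * (y - (u (Sum.inl w) - tr a) / N) := by
        field_simp
        ring
      refine le_trans ?_ (le_max_left _ _)
      change w _ ≤ _
      rw [e, map_mul, InfinitePlace.map_natCast]
      exact mul_le_mul_of_nonneg_left (hy w) (Nat.cast_nonneg _)
    · refine le_trans ?_ (le_max_right _ _)
      have b1 := h1 w hw
      simp only [hw, if_true, dif_pos] at b1
      rw [add_sub_right_comm]
      exact (w.1.add_le _ _).trans (add_le_add b1 (hNw w y))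
  · intro C
    refine Set.Finite.of_finite_image (f := tr) ((fin_bdd S C).subset ?_) ?_
    · rintro _ ⟨a, ⟨ha, h1⟩, rfl⟩
      exact ⟨ha.2, fun w hw => h1 (Sum.inr ⟨w, hw⟩), fun w => h1 (Sum.inl w)⟩
    · rintro a ⟨ha, -⟩ b ⟨hb, -⟩ e
      refine (inv_mul_eq_one.1 (hinj _ (A.mul_mem (A.inv_mem ha.1) hb.1) ?_))
      rw [tr_add _ (A.inv_mem ha.1), tr_inv a ha.1, e, neg_add_cancel]
  · intro x hx
    have hp := prod_abs_eq_one (h.lin_ne x)
    rw [finprod_eq_prod_of_mulSupport_subset (s := S) _ (fun w hw => by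
      by_contra hn
      exact hw (hout w hn x))] at hp
    have p1 : ∀ w ∈ (Finset.univ : Finset (InfinitePlace K)), 1 ≤ w (lin x) ^ w.mult :=
      fun w _ => one_le_pow₀ (hx (Sum.inl w))
    have p2 : ∀ w ∈ S, 1 ≤ w (lin x) := fun w hw => hx (Sum.inr ⟨w, hw⟩)
    have q1 := Finset.one_le_prod p1
    have q2 := Finset.one_le_prod p2
    rintro (w | ⟨w, hw⟩)
    · have := eq_one_of_prod _ _ p1 (by nlinarith) w (Finset.mem_univ w)
      exact (pow_eq_one_iff_of_nonneg (apply_nonneg _ _) w.mult_ne_zero).1 this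
    · exact eq_one_of_prod _ _ p2 (by nlinarith) w hw

theorem nf_general (hG : IsAutomatic G) {lin tr : G → K} {A : Subgroup G} (h : Aff lin tr A)
    (hinj : ∀ a ∈ A, tr a = 0 → a = 1) (hA : A ≠ ⊥) (g : G) :
    ∃ n : ℕ, 0 < n ∧ lin g ^ n = 1 := by
  classical
  have tr_add : ∀ a ∈ A, ∀ b, tr (a * b) = tr a + tr b := fun a ha b => by
    rw [h.tr_mul, h.lin_A a ha, one_mul]
  have tr_inv : ∀ a ∈ A, tr a⁻¹ = - tr a := fun a ha => by
    have := tr_add a ha a⁻¹
    rw [mul_inv_cancel, h.tr_one] at this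
    linear_combination -this
  have tr_zpow : ∀ a ∈ A, ∀ m : ℤ, tr (a ^ m) = m * tr a := by
    intro a ha m
    induction m using Int.induction_on with
    | zero => simp [h.tr_one]
    | succ m ih => rw [zpow_add_one, tr_add _ (A.zpow_mem ha _), ih]; push_cast; ring
    | pred m ih =>
      rw [zpow_sub_one, tr_add _ (A.zpow_mem ha _), ih, tr_inv a ha]; push_cast; ring
  obtain ⟨⟨a0, ha0⟩, hne⟩ := Subgroup.ne_bot_iff_exists_ne_one.1 hA
  have hx : tr a0 ≠ 0 := fun e => hne (Subtype.ext (hinj a0 ha0 e))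
  let K' := IntermediateField.adjoin ℚ (Set.range lin)
  obtain ⟨r, hr⟩ := Module.Projective.exists_dual_eq_one K' hx
  let lin' : G → K' := fun x => ⟨lin x, IntermediateField.subset_adjoin _ _ ⟨x, rfl⟩⟩
  have hsm : ∀ x y, lin x * y = lin' x • y := fun x y => rfl
  let A' : Subgroup G :=
    { carrier := {a | a ∈ A ∧ tr a = r (tr a) • tr a0}
      one_mem' := ⟨A.one_mem, by simp [h.tr_one]⟩
      mul_mem' := fun {a b} ha hb => ⟨A.mul_mem ha.1 hb.1, by
        rw [tr_add a ha.1, map_add, add_smul, ← ha.2, ← hb.2]⟩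
      inv_mem' := fun {a} ha => ⟨A.inv_mem ha.1, by
        rw [tr_inv a ha.1, map_neg, neg_smul, ← ha.2]⟩ }
  have h' : Aff lin' (fun x => r (tr x)) A' := by
    refine ⟨Subtype.ext h.lin_one, fun x y => Subtype.ext (h.lin_mul x y), fun x y => ?_,
      ⟨fun a ha x => ⟨h.normal.conj_mem a ha.1 x, ?_⟩⟩, fun a ha => Subtype.ext (h.lin_A a ha.1)⟩
    · rw [h.tr_mul, map_add, hsm, map_smul, smul_eq_mul]
    · rw [h.tr_conj x a ha.1, hsm, map_smul, smul_assoc, ← ha.2]
  have hQ : ∀ k ∈ Algebra.adjoin ℚ (Set.range lin), ∀ y : K,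
      (∃ n : ℕ, 0 < n ∧ ∃ a ∈ A, tr a = n * y) → ∃ n : ℕ, 0 < n ∧ ∃ a ∈ A, tr a = n * (k * y) := by
    intro k hk
    induction hk using Algebra.adjoin_induction with
    | mem k hk =>
      obtain ⟨x, rfl⟩ := hk
      rintro y ⟨n, hn, a, ha, e⟩
      exact ⟨n, hn, _, h.normal.conj_mem a ha x, by rw [h.tr_conj x a ha, e]; ring⟩
    | algebraMap q =>
      rintro y ⟨n, hn, a, ha, e⟩
      refine ⟨n * q.den, Nat.mul_pos hn q.den_pos, a ^ q.num, A.zpow_mem ha _, ?_⟩
      rw [tr_zpow a ha, e, eq_ratCast, Rat.cast_def]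
      have : (q.den : K) ≠ 0 := Nat.cast_ne_zero.2 q.den_ne_zero
      push_cast
      field_simp
    | add k l _ _ ihk ihl =>
      intro y hy
      obtain ⟨n, hn, a, ha, e1⟩ := ihk y hy
      obtain ⟨m, hm, b, hb, e2⟩ := ihl y hy
      refine ⟨n * m, Nat.mul_pos hn hm, a ^ (m : ℤ) * b ^ (n : ℤ),
        A.mul_mem (A.zpow_mem ha _) (A.zpow_mem hb _), ?_⟩
      rw [tr_add _ (A.zpow_mem ha _), tr_zpow a ha, tr_zpow b hb, e1, e2]
      push_cast
      ring
    | mul k l _ _ ihk ihl =>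
      intro y hy
      rw [mul_assoc]
      exact ihk _ (ihl y hy)
  obtain ⟨n, hn, e⟩ := nf_core (K := K') hG h' (fun a ha e => hinj a ha.1 (by
    rw [ha.2, e, zero_smul])) (fun y => by
      have hy : (y : K) ∈ Algebra.adjoin ℚ (Set.range lin) := by
        rw [← IntermediateField.adjoin_toSubalgebra_of_isAlgebraic
          (fun x _ => Algebra.IsAlgebraic.isAlgebraic x)]
        exact y.2
      obtain ⟨n, hn, a, ha, e⟩ := hQ _ hy (tr a0) ⟨1, one_pos, a0, ha0, by simp⟩
      have e2 : tr a = ((n : K') * y) • tr a0 := by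
        rw [e, ← mul_assoc]
        rfl
      have e3 : r (tr a) = n * y := by rw [e2, map_smul, hr, smul_eq_mul, mul_one]
      exact ⟨n, hn, a, ⟨ha, by rw [e3, e2]⟩, e3⟩) g
  exact ⟨n, hn, congrArg Subtype.val e⟩

end Pool.Agent.Lib.MP_2fb4be_al
end
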