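import Mathlib
import Pool.Agent.Results.MP_2fb4be_al.AffineNormal

/-!
Consequence for the Baumslag-Solitar relation.
-/

set_option autoImplicit false

namespace Pool.Agent.Lib.MP_2fb4be_al

theorem no_bs (G : Type) [Group G] (hG : IsAutomatic G) (K : Type) [Field K] [NumberField K]
    (π : G →* (K ≃ᵃ[K] K)) (A : Subgroup G) [A.Normal]
    (htr : ∀ a ∈ A, ∃ t : K, ∀ z : K, π a z = z + t) (hinj : ∀ a ∈ A, π a = 1 → a = 1)
    (x y : G) (hx : x ∈ A) (hxy : y * x * y⁻¹ = x ^ 2) : x = 1 := by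
  have := Results.MP_2fb4be_al.AffineNormal.result G hG K π A htr hinj
  obtain ⟨n, hn, -, hy⟩ := Subgroup.exists_pow_mem_of_index_ne_zero this.index_ne_zero y
  have h1 : ∀ m : ℕ, y ^ m * x * (y ^ m)⁻¹ = x ^ 2 ^ m := by
    intro m
    induction m with
    | zero => simp
    | succ m ih =>
      rw [pow_succ 2, pow_mul, ← ih, conj_pow, pow_succ y, ← hxy]
      group
  have h2 : x ^ 2 ^ n = x := by
    rw [← h1, ← (Subgroup.mem_centralizer_iff.1 hy x hx), mul_inv_cancel_right]
  obtain ⟨t, ht⟩ := htr x hx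
  have h3 : ∀ (m : ℕ) z, π (x ^ m) z = z + m * t := by
    intro m
    induction m with
    | zero => simp
    | succ m ih =>
      intro z
      rw [pow_succ, map_mul]
      change π (x ^ m) (π x z) = _
      rw [ih, ht]
      push_cast
      ring
  have h4 := h3 (2 ^ n) 0
  rw [h2, ht] at h4
  have h5 : ((2 ^ n : ℕ) : K) ≠ 1 := by
    exact_mod_cast (Nat.one_lt_two_pow hn.ne').ne'
  have h6 : t = 0 := by
    by_contra h0
    exact h5 (mul_right_cancel₀ h0 (by linear_combination -h4))
  refine hinj x hx ?_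
  ext z
  simp [ht, h6]

end Pool.Agent.Lib.MP_2fb4be_al
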